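import Mathlib

/-!
# Primes dividing some `2^n - 3^m` with small exponents
-/

set_option autoImplicit false

open Finset

namespace Pool.Agent.Lib.MP_9c4f7e_nt.Rare

/-- `|2^n - 3^m|` -/
def D (n m : ℕ) : ℕ := ((2 : ℤ) ^ n - 3 ^ m).natAbs

/-- `q` divides some `2^n - 3^m` with `0 < n ≤ Y`, `m ≤ n` -/
def Dv (q : ℕ) (Y : ℝ) : Prop :=
  ∃ n m : ℕ, 0 < n ∧ (n : ℝ) ≤ Y ∧ m ≤ n ∧ q ∣ D n m

lemma D_pos {n : ℕ} (hn : 0 < n) (m : ℕ) : 0 < D n m := by
  unfold D
  rw [Int.natAbs_pos]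
  intro h
  have h1 : (2 : ℤ) ^ n = 3 ^ m := by linarith
  have h2 : Even ((2 : ℤ) ^ n) := (even_two).pow_of_ne_zero (by omega)
  have h3 : Odd ((3 : ℤ) ^ m) := Odd.pow (by decide)
  rw [h1] at h2
  exact (Int.not_even_iff_odd.mpr h3) h2

lemma D_le {n m : ℕ} (hm : m ≤ n) : D n m ≤ 3 ^ n := by
  unfold D
  have h1 : (2 : ℤ) ^ n ≤ 3 ^ n := pow_le_pow_left₀ (by norm_num) (by norm_num) n
  have h2 : (3 : ℤ) ^ m ≤ 3 ^ n := pow_le_pow_right₀ (by norm_num) hm
  have h3 : (0 : ℤ) < 2 ^ n := by positivity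
  have h4 : (0 : ℤ) < 3 ^ m := by positivity
  have h5 : (((2 : ℤ) ^ n - 3 ^ m).natAbs : ℤ) ≤ 3 ^ n := by
    rw [Int.natCast_natAbs, abs_le]
    constructor <;> linarith
  exact_mod_cast h5

lemma Dv.of_dvd {q k : ℕ} {Y : ℝ} (h : Dv k Y) (hq : q ∣ k) : Dv q Y := by
  obtain ⟨n, m, h1, h2, h3, h4⟩ := h
  exact ⟨n, m, h1, h2, h3, hq.trans h4⟩

lemma Dv.mono {q : ℕ} {Y Z : ℝ} (h : Dv q Y) (hY : Y ≤ Z) : Dv q Z := by
  obtain ⟨n, m, h1, h2, h3, h4⟩ := h
  exact ⟨n, m, h1, h2.trans hY, h3, h4⟩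

/-- The sum of the `log p` over distinct primes dividing `N`. -/
lemma sum_log_dvd {N : ℕ} (hN : 0 < N) (S : Finset ℕ) (hS : ∀ p ∈ S, p.Prime ∧ p ∣ N) :
    ∑ p ∈ S, Real.log p ≤ Real.log N := by
  have h1 : (∏ p ∈ S, p) ∣ N :=
    Finset.prod_primes_dvd N (fun p hp => (hS p hp).1.prime) fun p hp => (hS p hp).2
  have h2 : ∏ p ∈ S, p ≤ N := Nat.le_of_dvd hN h1
  have h3 : ∏ p ∈ S, (p : ℝ) ≤ N := by
    have h4 := (Nat.cast_le (α := ℝ)).mpr h2
    rwa [Nat.cast_prod] at h4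
  rw [← Real.log_prod (fun p hp => by
    have := (hS p hp).1.pos
    positivity)]
  refine Real.log_le_log (Finset.prod_pos fun p hp => ?_) h3
  have := (hS p hp).1.pos
  positivity

/-- The primes dividing some `2^n - 3^m`, `n ≤ Y`, have `∑ log p ≤ 3 Y^3`. -/
theorem sum_log_bad {Y : ℝ} (hY : 1 ≤ Y) (S : Finset ℕ) (hS : ∀ p ∈ S, p.Prime ∧ Dv p Y) :
    ∑ p ∈ S, Real.log p ≤ 3 * Y ^ 3 := by
  classical
  obtain ⟨y, hy⟩ : ∃ y : ℕ, y = ⌊Y⌋₊ := ⟨_, rfl⟩
  have hy1 : 1 ≤ y := by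
    rw [hy]
    exact Nat.le_floor (by exact_mod_cast hY)
  have hyY : (y : ℝ) ≤ Y := by
    rw [hy]
    exact Nat.floor_le (by linarith)
  have hlog3 : Real.log 3 ≤ 3 / 2 := by
    have h1 : Real.log 3 = Real.log (3 / Real.exp 1) + 1 := by
      rw [Real.log_div (by norm_num) (Real.exp_pos 1).ne', Real.log_exp]
      ring
    have h2 : Real.log (3 / Real.exp 1) ≤ 3 / Real.exp 1 - 1 :=
      Real.log_le_sub_one_of_pos (by positivity)
    have h3 : (2.7182818283 : ℝ) < Real.exp 1 := Real.exp_one_gt_d9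
    have h4 : 3 / Real.exp 1 ≤ 3 / 2 := by
      apply div_le_div_of_nonneg_left (by norm_num) (by norm_num)
      linarith
    linarith
  have hlog3' : 0 ≤ Real.log 3 := Real.log_nonneg (by norm_num)
  -- split by exponent pairs
  have h1 : ∑ p ∈ S, Real.log p ≤ ∑ n ∈ Icc 1 y, ∑ m ∈ range (n + 1),
      ∑ p ∈ S.filter (fun p => p ∣ D n m), Real.log p := by
    have h2 : ∀ p ∈ S, Real.log p ≤ ∑ n ∈ Icc 1 y, ∑ m ∈ range (n + 1),
        if p ∣ D n m then Real.log p else 0 := by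
      intro p hp
      obtain ⟨hpp, n, m, hn0, hnY, hmn, hd⟩ := hS p hp
      have hlp : 0 ≤ Real.log p := Real.log_natCast_nonneg p
      have hn : n ∈ Icc 1 y := by
        rw [mem_Icc, hy]
        exact ⟨hn0, Nat.le_floor hnY⟩
      have hnn : ∀ a b : ℕ, 0 ≤ if p ∣ D a b then Real.log p else 0 := by
        intro a b
        split_ifs
        · exact hlp
        · exact le_rfl
      calc Real.log p = if p ∣ D n m then Real.log p else 0 := by rw [if_pos hd]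
        _ ≤ ∑ m ∈ range (n + 1), if p ∣ D n m then Real.log p else 0 :=
            single_le_sum (f := fun m => if p ∣ D n m then Real.log p else 0)
              (fun b _ => hnn n b) (mem_range.mpr (by omega))
        _ ≤ _ := single_le_sum (f := fun n => ∑ m ∈ range (n + 1), if p ∣ D n m then Real.log p else 0)
              (fun a _ => sum_nonneg fun b _ => hnn a b) hn
    refine (sum_le_sum h2).trans (le_of_eq ?_)
    rw [sum_comm]
    refine sum_congr rfl fun n _ => ?_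
    rw [sum_comm]
    refine sum_congr rfl fun m _ => ?_
    rw [sum_filter]
  refine h1.trans ?_
  have h3 : ∀ n ∈ Icc 1 y, ∑ m ∈ range (n + 1),
      ∑ p ∈ S.filter (fun p => p ∣ D n m), Real.log p ≤ 2 * (y : ℝ) * (y * Real.log 3) := by
    intro n hn
    rw [mem_Icc] at hn
    have hnr : (n : ℝ) ≤ y := by exact_mod_cast hn.2
    have hn1 : (1 : ℝ) ≤ n := by exact_mod_cast hn.1
    have h4 : ∀ m ∈ range (n + 1), ∑ p ∈ S.filter (fun p => p ∣ D n m), Real.log p ≤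
        y * Real.log 3 := by
      intro m hm
      have hm' : m ≤ n := by
        rw [mem_range] at hm
        omega
      have hD := D_pos (by omega : 0 < n) m
      have h5 := sum_log_dvd hD (S.filter (fun p => p ∣ D n m)) (fun p hp => by
        rw [mem_filter] at hp
        exact ⟨(hS p hp.1).1, hp.2⟩)
      have h6 : Real.log (D n m) ≤ n * Real.log 3 := by
        rw [← Real.log_pow]
        refine Real.log_le_log (by exact_mod_cast hD) ?_
        exact_mod_cast D_le hm'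
      have h7 : n * Real.log 3 ≤ y * Real.log 3 := mul_le_mul_of_nonneg_right hnr hlog3'
      linarith
    refine (sum_le_sum h4).trans ?_
    rw [sum_const, card_range, nsmul_eq_mul]
    refine mul_le_mul_of_nonneg_right ?_ (by positivity)
    push_cast
    linarith
  refine (sum_le_sum h3).trans ?_
  rw [sum_const, Nat.card_Icc, nsmul_eq_mul, Nat.add_sub_cancel]
  have hy0 : (0 : ℝ) ≤ y := Nat.cast_nonneg y
  have h8 : (y : ℝ) ^ 3 ≤ Y ^ 3 := pow_le_pow_left₀ hy0 hyY 3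
  have h9 : (y : ℝ) ^ 3 * Real.log 3 ≤ (y : ℝ) ^ 3 * (3 / 2) :=
    mul_le_mul_of_nonneg_left hlog3 (by positivity)
  nlinarith

/-- The number of primes above `x` dividing some `2^n - 3^m`, `n ≤ Y`. -/
theorem card_bad {Y x : ℝ} (hY : 1 ≤ Y) (hx : 1 < x) (S : Finset ℕ)
    (hS : ∀ p ∈ S, p.Prime ∧ x < p ∧ Dv p Y) : (S.card : ℝ) ≤ 3 * Y ^ 3 / Real.log x := by
  have hlx : 0 < Real.log x := Real.log_pos hx
  rw [le_div_iff₀ hlx]
  have h1 := sum_log_bad hY S fun p hp => ⟨(hS p hp).1, (hS p hp).2.2⟩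
  refine le_trans ?_ h1
  have h2 : ∀ p ∈ S, Real.log x ≤ Real.log p := fun p hp =>
    Real.log_le_log (by linarith) (hS p hp).2.1.le
  calc (S.card : ℝ) * Real.log x = ∑ p ∈ S, Real.log x := by rw [sum_const, nsmul_eq_mul]
    _ ≤ ∑ p ∈ S, Real.log p := sum_le_sum h2

end Pool.Agent.Lib.MP_9c4f7e_nt.Rare
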