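import Mathlib
import Pool.Agent.Lib.Sieve.Smooth

/-!
# Integers composed of the primes up to `w` and of a sparse set of larger primes
-/

set_option autoImplicit false

open Finset ArithmeticFunction Pool.Agent.Lib.Sieve

namespace Pool.Agent.Lib.MP_9c4f7e_nt.Rare

/-- the Euler product over the primes up to `w`, at `1 - η` -/
lemma prod_small : ∃ C : ℝ, 0 < C ∧ ∀ (w : ℕ) (η : ℝ), 2 ≤ w → 0 < η → η ≤ 1 / 2 →
    ∏ p ∈ (Finset.Icc 1 w).filter Nat.Prime, (1 - (p : ℝ) ^ (-(1 - η)))⁻¹ ≤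
      C * Real.log w * Real.exp (4 * η * (w : ℝ) ^ η * (Real.log w + Real.log 4)) := by
  obtain ⟨C, hC, hM⟩ := mertens_product_upper
  refine ⟨C, hC, fun w η hw hη0 hη => ?_⟩
  have hwr : (2 : ℝ) ≤ w := by exact_mod_cast hw
  set σ : ℝ := 1 - η with hσ
  have hσ0 : 1 / 2 ≤ σ := by rw [hσ]; linarith
  set T := (Finset.Icc 1 w).filter Nat.Prime with hT
  have hTp : ∀ p ∈ T, p.Prime := fun p hp => (Finset.mem_filter.mp hp).2
  have hhalf : ∀ p ∈ T, (p : ℝ) ^ (-σ) ≤ 3 / 4 := by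
    intro p hp
    have hp2 : (2 : ℝ) ≤ p := by exact_mod_cast (hTp p hp).two_le
    rw [Real.rpow_neg (by linarith)]
    have h1 : (p : ℝ) ^ (1 / 2 : ℝ) ≤ (p : ℝ) ^ σ :=
      Real.rpow_le_rpow_of_exponent_le (by linarith) hσ0
    have h2 : (4 / 3 : ℝ) ≤ (p : ℝ) ^ (1 / 2 : ℝ) := by
      rw [← Real.sqrt_eq_rpow]
      apply Real.le_sqrt_of_sq_le
      linarith
    rw [inv_le_comm₀ (by positivity) (by norm_num)]
    norm_num
    linarith
  have hfac : ∀ p ∈ T, (1 - (p : ℝ) ^ (-σ))⁻¹ ≤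
      (1 - (1 : ℝ) / p)⁻¹ * Real.exp (4 * η * (w : ℝ) ^ η * (Real.log p / p)) := by
    intro p hp
    have hpp := hTp p hp
    have hp2 : (2 : ℝ) ≤ p := by exact_mod_cast hpp.two_le
    have hp0 : (0 : ℝ) < p := by linarith
    have hpw : (p : ℝ) ≤ w := by
      exact_mod_cast (Finset.mem_Icc.mp (Finset.mem_filter.mp hp).1).2
    have h1 : 0 < 1 - (p : ℝ) ^ (-σ) := by have := hhalf p hp; linarith
    have h2 : 0 < 1 - (1 : ℝ) / p := by
      rw [sub_pos, div_lt_one hp0]; linarith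
    rw [inv_le_iff_one_le_mul₀ h1]
    have hlogp : 0 ≤ Real.log p := Real.log_nonneg (by linarith)
    have h3 : (p : ℝ) ^ (-σ) - 1 / p ≤ η * (w : ℝ) ^ η * (Real.log p / p) := by
      have e1 : (p : ℝ) ^ (-σ) = (p : ℝ) ^ η * (1 / p) := by
        rw [hσ, show -(1 - η) = η + (-1) by ring, Real.rpow_add hp0, Real.rpow_neg_one, one_div]
      have e2 : (p : ℝ) ^ η - 1 ≤ η * (w : ℝ) ^ η * Real.log p := by
        have e3 : (p : ℝ) ^ η = Real.exp (η * Real.log p) := by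
          rw [Real.rpow_def_of_pos hp0, mul_comm]
        have e4 : 1 - η * Real.log p ≤ Real.exp (-(η * Real.log p)) := by
          have := Real.add_one_le_exp (-(η * Real.log p))
          linarith
        have e5 : (p : ℝ) ^ η - 1 ≤ η * Real.log p * (p : ℝ) ^ η := by
          have hpos : 0 < Real.exp (η * Real.log p) := Real.exp_pos _
          have : Real.exp (-(η * Real.log p)) * Real.exp (η * Real.log p) = 1 := by
            rw [← Real.exp_add]; simp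
          rw [e3]
          nlinarith
        have e6 : (p : ℝ) ^ η ≤ (w : ℝ) ^ η := Real.rpow_le_rpow hp0.le hpw hη0.le
        calc (p : ℝ) ^ η - 1 ≤ η * Real.log p * (p : ℝ) ^ η := e5
          _ ≤ η * Real.log p * (w : ℝ) ^ η := by gcongr
          _ = η * (w : ℝ) ^ η * Real.log p := by ring
      rw [e1]
      calc (p : ℝ) ^ η * (1 / p) - 1 / p = ((p : ℝ) ^ η - 1) * (1 / p) := by ring
        _ ≤ (η * (w : ℝ) ^ η * Real.log p) * (1 / p) := by gcongr
        _ = η * (w : ℝ) ^ η * (Real.log p / p) := by ring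
    set E := η * (w : ℝ) ^ η * (Real.log p / p) with hE
    have hE0 : 0 ≤ E := by positivity
    have hexp : 1 + 4 * E ≤ Real.exp (4 * η * (w : ℝ) ^ η * (Real.log p / p)) := by
      have := Real.add_one_le_exp (4 * E)
      have e : 4 * E = 4 * η * (w : ℝ) ^ η * (Real.log p / p) := by rw [hE]; ring
      rw [← e]
      linarith
    have hfp := hhalf p hp
    have hkey : 1 - (1 : ℝ) / p ≤ (1 - (p : ℝ) ^ (-σ)) * (1 + 4 * E) := by nlinarith
    calc (1 : ℝ) = (1 - (1 : ℝ) / p)⁻¹ * (1 - (1 : ℝ) / p) := (inv_mul_cancel₀ h2.ne').symm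
      _ ≤ (1 - (1 : ℝ) / p)⁻¹ * ((1 - (p : ℝ) ^ (-σ)) * (1 + 4 * E)) := by gcongr
      _ ≤ (1 - (1 : ℝ) / p)⁻¹ * ((1 - (p : ℝ) ^ (-σ)) *
            Real.exp (4 * η * (w : ℝ) ^ η * (Real.log p / p))) := by gcongr
      _ = (1 - (1 : ℝ) / p)⁻¹ * Real.exp (4 * η * (w : ℝ) ^ η * (Real.log p / p)) *
            (1 - (p : ℝ) ^ (-σ)) := by ring
  calc ∏ p ∈ T, (1 - (p : ℝ) ^ (-σ))⁻¹ ≤ ∏ p ∈ T,
        ((1 - (1 : ℝ) / p)⁻¹ * Real.exp (4 * η * (w : ℝ) ^ η * (Real.log p / p))) := by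
        apply Finset.prod_le_prod
        · intro p hp
          have := hhalf p hp
          exact inv_nonneg.mpr (by linarith)
        · exact hfac
    _ = (∏ p ∈ T, (1 - (1 : ℝ) / p)⁻¹) *
          Real.exp (4 * η * (w : ℝ) ^ η * ∑ p ∈ T, Real.log p / p) := by
        rw [Finset.prod_mul_distrib, ← Real.exp_sum, Finset.mul_sum]
    _ ≤ (C * Real.log w) *
          Real.exp (4 * η * (w : ℝ) ^ η * (Real.log w + Real.log 4)) := by
        have hs := sum_log_div_le w (by omega)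
        have hlogw : 0 ≤ Real.log w := Real.log_nonneg (by linarith)
        gcongr
        exact hM w hw

/-- the primes up to `w` together with `B` -/
def TT (w : ℕ) (B : Finset ℕ) : Finset ℕ := (Finset.Icc 1 w).filter Nat.Prime ∪ B

/-- The integers up to `X` composed of primes of `TT w B`. -/
def AA (X w : ℕ) (B : Finset ℕ) : Finset ℕ :=
  (Finset.Icc 1 X).filter fun m => m.primeFactors ⊆ TT w B

/-- the Euler product over `TT w B` -/
lemma prod_all : ∃ C : ℝ, 0 < C ∧ ∀ (w : ℕ) (η : ℝ) (B : Finset ℕ), 2 ≤ w → 0 < η → η ≤ 1 / 8 →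
    (∀ p ∈ B, p.Prime ∧ w < p) → ∑ p ∈ B, Real.log p ≤ 3 * (w : ℝ) ^ (3 / 8 : ℝ) →
    ∏ p ∈ TT w B, (1 - (p : ℝ) ^ (-(1 - η)))⁻¹ ≤
      C * Real.log w * Real.exp (4 * η * (w : ℝ) ^ η * (Real.log w + Real.log 4)) := by
  obtain ⟨C, hC, h1⟩ := prod_small
  refine ⟨C * Real.exp 20, by positivity, fun w η B hw hη0 hη hB hs => ?_⟩
  have hwr : (2 : ℝ) ≤ w := by exact_mod_cast hw
  have hw0 : (0 : ℝ) < w := by linarith
  have hlogw : 0 ≤ Real.log w := Real.log_nonneg (by linarith)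
  have hlog2 : (0.6931471803 : ℝ) < Real.log 2 := Real.log_two_gt_d9
  have hlw2 : Real.log 2 ≤ Real.log w := Real.log_le_log (by norm_num) hwr
  have hdisj : Disjoint ((Finset.Icc 1 w).filter Nat.Prime) B := by
    rw [Finset.disjoint_left]
    intro p hp hpB
    have h2 := (Finset.mem_Icc.mp (Finset.mem_filter.mp hp).1).2
    have h3 := (hB p hpB).2
    omega
  have hsmall : ∀ p ∈ B, (p : ℝ) ^ (-(1 - η)) ≤ (w : ℝ) ^ (-(3 / 8) : ℝ) * (Real.log p / Real.log 2) := by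
    intro p hp
    have hwp : (w : ℝ) ≤ p := by exact_mod_cast (hB p hp).2.le
    have h2 : (p : ℝ) ^ (-(1 - η)) ≤ (w : ℝ) ^ (-(1 - η)) :=
      Real.rpow_le_rpow_of_nonpos hw0 hwp (by linarith)
    have h3 : (w : ℝ) ^ (-(1 - η)) ≤ (w : ℝ) ^ (-(3 / 8) : ℝ) :=
      Real.rpow_le_rpow_of_exponent_le (by linarith) (by linarith)
    have h4 : 1 ≤ Real.log p / Real.log 2 := by
      rw [le_div_iff₀ (by linarith), one_mul]
      exact Real.log_le_log (by norm_num) (hwr.trans hwp)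
    have h5 : (0 : ℝ) < (w : ℝ) ^ (-(3 / 8) : ℝ) := by positivity
    nlinarith
  have hsumB : ∑ p ∈ B, (p : ℝ) ^ (-(1 - η)) ≤ 5 := by
    refine (Finset.sum_le_sum hsmall).trans ?_
    rw [← Finset.mul_sum, ← Finset.sum_div]
    have h5 : (0 : ℝ) < (w : ℝ) ^ (-(3 / 8) : ℝ) := by positivity
    have h6 : (w : ℝ) ^ (-(3 / 8) : ℝ) * (w : ℝ) ^ (3 / 8 : ℝ) = 1 := by
      rw [← Real.rpow_add hw0]
      norm_num
    calc (w : ℝ) ^ (-(3 / 8) : ℝ) * ((∑ p ∈ B, Real.log p) / Real.log 2)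
        ≤ (w : ℝ) ^ (-(3 / 8) : ℝ) * ((3 * (w : ℝ) ^ (3 / 8 : ℝ)) / Real.log 2) := by
          gcongr
      _ = 3 * ((w : ℝ) ^ (-(3 / 8) : ℝ) * (w : ℝ) ^ (3 / 8 : ℝ)) / Real.log 2 := by ring
      _ = 3 / Real.log 2 := by rw [h6, mul_one]
      _ ≤ 5 := by
          rw [div_le_iff₀ (by linarith)]
          linarith
  have hB4 : ∀ p ∈ B, (p : ℝ) ^ (-(1 - η)) ≤ 3 / 4 := by
    intro p hp
    have hwp : (2 : ℝ) ≤ p := hwr.trans (by exact_mod_cast (hB p hp).2.le)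
    have h2 : (p : ℝ) ^ (-(1 - η)) ≤ (2 : ℝ) ^ (-(1 - η)) :=
      Real.rpow_le_rpow_of_nonpos (by norm_num) hwp (by linarith)
    have h3 : (2 : ℝ) ^ (-(1 - η)) ≤ (2 : ℝ) ^ (-(1 / 2) : ℝ) :=
      Real.rpow_le_rpow_of_exponent_le (by norm_num) (by linarith)
    have h4 : (2 : ℝ) ^ (-(1 / 2) : ℝ) ≤ 3 / 4 := by
      rw [Real.rpow_neg (by norm_num), ← Real.sqrt_eq_rpow, inv_le_comm₀ (by positivity) (by norm_num)]
      apply Real.le_sqrt_of_sq_le
      norm_num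
    linarith
  have hprodB : ∏ p ∈ B, (1 - (p : ℝ) ^ (-(1 - η)))⁻¹ ≤ Real.exp 20 := by
    calc ∏ p ∈ B, (1 - (p : ℝ) ^ (-(1 - η)))⁻¹ ≤ ∏ p ∈ B, Real.exp (4 * (p : ℝ) ^ (-(1 - η))) := by
          apply Finset.prod_le_prod
          · intro p hp
            have := hB4 p hp
            exact inv_nonneg.mpr (by linarith)
          · intro p hp
            have h2 := hB4 p hp
            have h3 : (0 : ℝ) ≤ (p : ℝ) ^ (-(1 - η)) := by positivity
            have h4 := Real.add_one_le_exp (4 * (p : ℝ) ^ (-(1 - η)))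
            have h5 : 0 < 1 - (p : ℝ) ^ (-(1 - η)) := by linarith
            rw [inv_le_iff_one_le_mul₀ h5]
            nlinarith
      _ = Real.exp (4 * ∑ p ∈ B, (p : ℝ) ^ (-(1 - η))) := by
          rw [← Real.exp_sum, Finset.mul_sum]
      _ ≤ Real.exp 20 := by
          apply Real.exp_le_exp.mpr
          linarith
  have h2 := h1 w η hw hη0 (by linarith)
  unfold TT
  rw [Finset.prod_union hdisj]
  have h3 : 0 ≤ ∏ p ∈ B, (1 - (p : ℝ) ^ (-(1 - η)))⁻¹ := by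
    apply Finset.prod_nonneg
    intro p hp
    have := hB4 p hp
    exact inv_nonneg.mpr (by linarith)
  calc (∏ p ∈ (Finset.Icc 1 w).filter Nat.Prime, (1 - (p : ℝ) ^ (-(1 - η)))⁻¹) *
        ∏ p ∈ B, (1 - (p : ℝ) ^ (-(1 - η)))⁻¹
      ≤ (C * Real.log w * Real.exp (4 * η * (w : ℝ) ^ η * (Real.log w + Real.log 4))) *
        Real.exp 20 := by gcongr
    _ = _ := by ring

end Pool.Agent.Lib.MP_9c4f7e_nt.Rare
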