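import Mathlib
import Pool.Agent.Lib.MP_9c4f7e_nt.Rare.Rank

/-!
# Counting the integers composed of the primes up to `w` and of a sparse set of larger primes
-/

set_option autoImplicit false

open Finset ArithmeticFunction Pool.Agent.Lib.Sieve

namespace Pool.Agent.Lib.MP_9c4f7e_nt.Rare

/-- the sum of `Λ(d)` over `d ≤ x` composed of primes of `TT w B` -/
lemma inner : ∃ C : ℝ, 0 < C ∧ ∀ (w : ℕ) (η x : ℝ) (B : Finset ℕ), 2 ≤ w → 0 < η → η ≤ 1 / 8 → 1 ≤ x →
    (∀ p ∈ B, p.Prime ∧ w < p) → ∑ p ∈ B, Real.log p ≤ 3 * (w : ℝ) ^ (3 / 8 : ℝ) →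
    ∑ d ∈ (Finset.Icc 1 ⌊x⌋₊).filter (fun d => d.primeFactors ⊆ TT w B), vonMangoldt d ≤
      C * (w : ℝ) ^ η * x ^ (1 - η) := by
  classical
  obtain ⟨C₁, hC₁⟩ := Chebyshev.psi_sub_theta_le_mul_sqrt
  refine ⟨|C₁| + Real.log 4 + 3, ?_, fun w η x B hw hη0 hη hx hB hs => ?_⟩
  · have := Real.log_pos (show (1 : ℝ) < 4 by norm_num)
    positivity
  have hwr : (2 : ℝ) ≤ w := by exact_mod_cast hw
  have hw0 : (0 : ℝ) < w := by linarith
  have hx0 : 0 < x := by linarith
  have hwη : 1 ≤ (w : ℝ) ^ η := Real.one_le_rpow (by linarith) hη0.le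
  have hxσ0 : 0 < x ^ (1 - η) := by positivity
  have hlog4 : 0 < Real.log 4 := Real.log_pos (by norm_num)
  set F := (Finset.Icc 1 ⌊x⌋₊).filter (fun d => d.primeFactors ⊆ TT w B) with hF
  -- non primes
  have h1 : ∑ d ∈ F.filter (fun d => ¬ d.Prime), vonMangoldt d ≤ |C₁| * x ^ (1 - η) := by
    have h2 : ∑ d ∈ F.filter (fun d => ¬ d.Prime), vonMangoldt d ≤
        Chebyshev.psi x - Chebyshev.theta x := by
      rw [Chebyshev.psi_sub_theta_eq_sum_not_prime]
      apply Finset.sum_le_sum_of_subset_of_nonneg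
      · intro d hd
        rw [Finset.mem_filter, hF, Finset.mem_filter, Finset.mem_Icc] at hd
        rw [Finset.mem_filter, Finset.mem_Ioc]
        exact ⟨⟨by omega, hd.1.1.2⟩, hd.2⟩
      · intro _ _ _
        exact vonMangoldt_nonneg
    have h3 : Real.sqrt x ≤ x ^ (1 - η) := by
      rw [Real.sqrt_eq_rpow]
      exact Real.rpow_le_rpow_of_exponent_le hx (by linarith)
    calc _ ≤ _ := h2
      _ ≤ C₁ * Real.sqrt x := hC₁ x
      _ ≤ |C₁| * Real.sqrt x := mul_le_mul_of_nonneg_right (le_abs_self _) (Real.sqrt_nonneg _)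
      _ ≤ |C₁| * x ^ (1 - η) := mul_le_mul_of_nonneg_left h3 (abs_nonneg _)
  -- primes up to w
  have h4 : ∑ d ∈ F.filter (fun d => d.Prime), vonMangoldt d ≤
      Chebyshev.theta (min w x) + ∑ p ∈ B.filter (fun p : ℕ => (p : ℝ) ≤ x), Real.log p := by
    have h5 : F.filter (fun d => d.Prime) ⊆
        ((Finset.Ioc 0 ⌊min (w : ℝ) x⌋₊).filter Nat.Prime) ∪ B.filter (fun p : ℕ => (p : ℝ) ≤ x) := by
      intro d hd
      rw [Finset.mem_filter, hF, Finset.mem_filter, Finset.mem_Icc] at hd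
      obtain ⟨⟨⟨h6, h7⟩, h8⟩, h9⟩ := hd
      have h10 : d ∈ d.primeFactors := Nat.mem_primeFactors.mpr ⟨h9, dvd_refl d, h9.ne_zero⟩
      have h11 := h8 h10
      have h12 : (d : ℝ) ≤ x := (Nat.le_floor_iff hx0.le).mp h7
      unfold TT at h11
      rw [Finset.mem_union, Finset.mem_filter, Finset.mem_Icc] at h11
      rw [Finset.mem_union, Finset.mem_filter, Finset.mem_filter, Finset.mem_Ioc]
      rcases h11 with h | h
      · left
        refine ⟨⟨h.2.pos, ?_⟩, h.2⟩
        apply Nat.le_floor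
        rw [le_min_iff]
        exact ⟨by exact_mod_cast h.1.2, h12⟩
      · right
        exact ⟨h, h12⟩
    have h13 : ∀ d ∈ F.filter (fun d => d.Prime), vonMangoldt d = Real.log d := by
      intro d hd
      exact vonMangoldt_apply_prime (Finset.mem_filter.mp hd).2
    rw [Finset.sum_congr rfl h13]
    have h14 : ∑ d ∈ F.filter (fun d => d.Prime), Real.log d ≤
        ∑ d ∈ ((Finset.Ioc 0 ⌊min (w : ℝ) x⌋₊).filter Nat.Prime) ∪ B.filter (fun p : ℕ => (p : ℝ) ≤ x),
          Real.log d :=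
      Finset.sum_le_sum_of_subset_of_nonneg h5 fun _ _ _ => Real.log_natCast_nonneg _
    refine h14.trans ?_
    have h15 : ∑ d ∈ ((Finset.Ioc 0 ⌊min (w : ℝ) x⌋₊).filter Nat.Prime) ∪ B.filter (fun p : ℕ => (p : ℝ) ≤ x),
          Real.log d ≤ ∑ d ∈ (Finset.Ioc 0 ⌊min (w : ℝ) x⌋₊).filter Nat.Prime, Real.log d +
            ∑ d ∈ B.filter (fun p : ℕ => (p : ℝ) ≤ x), Real.log d := by
      rw [← Finset.sum_union_inter]
      have : 0 ≤ ∑ d ∈ (Finset.Ioc 0 ⌊min (w : ℝ) x⌋₊).filter Nat.Prime ∩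
          B.filter (fun p : ℕ => (p : ℝ) ≤ x), Real.log d :=
        Finset.sum_nonneg fun _ _ => Real.log_natCast_nonneg _
      linarith
    refine h15.trans (le_of_eq ?_)
    rfl
  have h16 : Chebyshev.theta (min w x) ≤ Real.log 4 * ((w : ℝ) ^ η * x ^ (1 - η)) := by
    have hm0 : 0 < min (w : ℝ) x := lt_min hw0 hx0
    refine (Chebyshev.theta_le_log4_mul_x hm0.le).trans ?_
    refine mul_le_mul_of_nonneg_left ?_ hlog4.le
    calc min (w : ℝ) x = (min (w : ℝ) x) ^ η * (min (w : ℝ) x) ^ (1 - η) := by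
          rw [← Real.rpow_add hm0]
          norm_num
      _ ≤ (w : ℝ) ^ η * x ^ (1 - η) := by
          apply mul_le_mul
          · exact Real.rpow_le_rpow hm0.le (min_le_left _ _) hη0.le
          · exact Real.rpow_le_rpow hm0.le (min_le_right _ _) (by linarith)
          · positivity
          · positivity
  have h17 : ∑ p ∈ B.filter (fun p : ℕ => (p : ℝ) ≤ x), Real.log p ≤ 3 * ((w : ℝ) ^ η * x ^ (1 - η)) := by
    by_cases hxw : x ≤ w
    · have : B.filter (fun p : ℕ => (p : ℝ) ≤ x) = ∅ := by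
        rw [Finset.filter_eq_empty_iff]
        intro p hp hpx
        have h18 : (w : ℝ) < p := by exact_mod_cast (hB p hp).2
        linarith
      rw [this, Finset.sum_empty]
      positivity
    · rw [not_le] at hxw
      have h18 : ∑ p ∈ B.filter (fun p : ℕ => (p : ℝ) ≤ x), Real.log p ≤ ∑ p ∈ B, Real.log p :=
        Finset.sum_le_sum_of_subset_of_nonneg (Finset.filter_subset _ _)
          fun _ _ _ => Real.log_natCast_nonneg _
      have h19 : (w : ℝ) ^ (3 / 8 : ℝ) ≤ (w : ℝ) ^ η * (w : ℝ) ^ (1 - η) := by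
        rw [← Real.rpow_add hw0]
        exact Real.rpow_le_rpow_of_exponent_le (by linarith) (by linarith)
      have h20 : (w : ℝ) ^ (1 - η) ≤ x ^ (1 - η) :=
        Real.rpow_le_rpow hw0.le hxw.le (by linarith)
      have h21 : (w : ℝ) ^ η * (w : ℝ) ^ (1 - η) ≤ (w : ℝ) ^ η * x ^ (1 - η) :=
        mul_le_mul_of_nonneg_left h20 (by positivity)
      linarith
  have h22 : ∑ d ∈ F, vonMangoldt d = ∑ d ∈ F.filter (fun d => d.Prime), vonMangoldt d +
      ∑ d ∈ F.filter (fun d => ¬ d.Prime), vonMangoldt d :=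
    (Finset.sum_filter_add_sum_filter_not F _ _).symm
  rw [h22]
  have h23 : |C₁| * x ^ (1 - η) ≤ |C₁| * ((w : ℝ) ^ η * x ^ (1 - η)) := by
    refine mul_le_mul_of_nonneg_left ?_ (abs_nonneg _)
    nlinarith
  have h24 : (|C₁| + Real.log 4 + 3) * (w : ℝ) ^ η * x ^ (1 - η) =
    |C₁| * ((w : ℝ) ^ η * x ^ (1 - η)) + Real.log 4 * ((w : ℝ) ^ η * x ^ (1 - η)) +
      3 * ((w : ℝ) ^ η * x ^ (1 - η)) := by ring
  rw [h24]
  linarith

/-- the number of elements of `AA X w B` by Rankin's method, without loss of a logarithm -/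
theorem count : ∃ C : ℝ, 0 < C ∧ ∀ (X w : ℕ) (η : ℝ) (B : Finset ℕ), 2 ≤ w → 2 ≤ X → 0 < η → η ≤ 1 / 8 →
    (∀ p ∈ B, p.Prime ∧ w < p) → ∑ p ∈ B, Real.log p ≤ 3 * (w : ℝ) ^ (3 / 8 : ℝ) →
    ((AA X w B).card : ℝ) ≤ Real.sqrt X + C * (Real.log w / Real.log X) * (w : ℝ) ^ η *
      (X : ℝ) ^ (1 - η) * Real.exp (4 * η * (w : ℝ) ^ η * (Real.log w + Real.log 4)) := by
  classical
  obtain ⟨C₁, hC₁, hin⟩ := inner
  obtain ⟨C₂, hC₂, hpr⟩ := prod_all
  refine ⟨2 * C₁ * C₂, by positivity, fun X w η B hw hX hη0 hη hB hs => ?_⟩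
  have hwr : (2 : ℝ) ≤ w := by exact_mod_cast hw
  have hXr : (2 : ℝ) ≤ X := by exact_mod_cast hX
  have hX0 : (0 : ℝ) < X := by linarith
  have hlX : 0 < Real.log X := Real.log_pos (by linarith)
  obtain ⟨A, hA⟩ : ∃ A, A = AA X w B := ⟨_, rfl⟩
  rw [← hA]
  have hmem : ∀ k, k ∈ A ↔ (1 ≤ k ∧ k ≤ X) ∧ k.primeFactors ⊆ TT w B := by
    intro k
    rw [hA, AA, Finset.mem_filter, Finset.mem_Icc]
  -- the function f
  obtain ⟨f, hf⟩ : ∃ f : ℕ → ℝ, f = fun n : ℕ => if n = 0 then 0 else (n : ℝ) ^ (-(1 - η)) := ⟨_, rfl⟩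
  have hfn : ∀ n, n ≠ 0 → f n = (n : ℝ) ^ (-(1 - η)) := by
    intro n hn
    rw [hf]
    simp only [if_neg hn]
  have hf0 : ∀ n, 0 ≤ f n := by
    intro n
    rw [hf]
    simp only
    split_ifs <;> positivity
  have hmul : ∀ m n, f (m * n) = f m * f n := by
    intro m n
    by_cases hm : m = 0
    · subst hm; simp [hf]
    by_cases hn : n = 0
    · subst hn; simp [hf]
    rw [hfn _ (mul_ne_zero hm hn), hfn m hm, hfn n hn]
    push_cast
    rw [Real.mul_rpow (Nat.cast_nonneg m) (Nat.cast_nonneg n)]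
  have hTp : ∀ p ∈ TT w B, p.Prime := by
    intro p hp
    unfold TT at hp
    rw [Finset.mem_union, Finset.mem_filter] at hp
    rcases hp with h | h
    · exact h.2
    · exact (hB p h).1
  have hlt : ∀ p ∈ TT w B, f p < 1 := by
    intro p hp
    rw [hfn p (hTp p hp).ne_zero]
    have hp1 : (1 : ℝ) < p := by exact_mod_cast (hTp p hp).one_lt
    exact Real.rpow_lt_one_of_one_lt_of_neg hp1 (by linarith)
  have hS : ∑ m ∈ A, f m ≤
      C₂ * Real.log w * Real.exp (4 * η * (w : ℝ) ^ η * (Real.log w + Real.log 4)) := by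
    have h1 := sum_primeFactors_subset_le f hf0 (by rw [hf]; simp) hmul X (TT w B) hTp hlt
    have h2 := hpr w η B hw hη0 hη hB hs
    have h3 : ∏ p ∈ TT w B, (1 - f p)⁻¹ = ∏ p ∈ TT w B, (1 - (p : ℝ) ^ (-(1 - η)))⁻¹ := by
      refine Finset.prod_congr rfl fun p hp => ?_
      rw [hfn p (hTp p hp).ne_zero]
    rw [h3] at h1
    rw [hA]
    exact h1.trans h2
  -- the sum of the logarithms
  have hlog : ∑ k ∈ A, Real.log k ≤ C₁ * (w : ℝ) ^ η * (X : ℝ) ^ (1 - η) * ∑ m ∈ A, f m := by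
    have h1 : ∑ k ∈ A, Real.log k = ∑ k ∈ A, ∑ q ∈ k.divisorsAntidiagonal, vonMangoldt q.2 := by
      refine Finset.sum_congr rfl fun k _ => ?_
      rw [← vonMangoldt_sum, Nat.sum_divisorsAntidiagonal' (fun _ b => vonMangoldt b)]
    have hdisj : Set.PairwiseDisjoint (A : Set ℕ) (fun k => k.divisorsAntidiagonal) := by
      intro k _ l _ hkl
      rw [Function.onFun, Finset.disjoint_left]
      intro q hq hq'
      rw [Nat.mem_divisorsAntidiagonal] at hq hq'
      exact hkl (hq.1.symm.trans hq'.1)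
    rw [h1, ← Finset.sum_biUnion hdisj]
    have h2 : A.biUnion (fun k => k.divisorsAntidiagonal) ⊆
        A.biUnion (fun m => ((Finset.Icc 1 ⌊(X : ℝ) / m⌋₊).filter
          (fun d => d.primeFactors ⊆ TT w B)).image (fun d => (m, d))) := by
      rintro ⟨m, d⟩ hq
      rw [Finset.mem_biUnion] at hq
      obtain ⟨k, hk, hq⟩ := hq
      rw [Nat.mem_divisorsAntidiagonal] at hq
      obtain ⟨hmd, hk0⟩ := hq
      simp only at hmd
      rw [hmem] at hk
      have hm0 : m ≠ 0 := by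
        rintro rfl
        rw [zero_mul] at hmd
        exact hk0 hmd.symm
      have hd0 : d ≠ 0 := by
        rintro rfl
        rw [mul_zero] at hmd
        exact hk0 hmd.symm
      have hmk : m ∣ k := ⟨d, hmd.symm⟩
      have hdk : d ∣ k := ⟨m, by rw [mul_comm]; exact hmd.symm⟩
      rw [Finset.mem_biUnion]
      refine ⟨m, ?_, ?_⟩
      · rw [hmem]
        refine ⟨⟨Nat.pos_of_ne_zero hm0, (Nat.le_of_dvd (by omega) hmk).trans hk.1.2⟩, ?_⟩
        exact (Nat.primeFactors_mono hmk hk0).trans hk.2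
      · rw [Finset.mem_image]
        refine ⟨d, ?_, rfl⟩
        rw [Finset.mem_filter, Finset.mem_Icc]
        refine ⟨⟨Nat.pos_of_ne_zero hd0, ?_⟩, (Nat.primeFactors_mono hdk hk0).trans hk.2⟩
        apply Nat.le_floor
        rw [le_div_iff₀ (by exact_mod_cast Nat.pos_of_ne_zero hm0)]
        have : m * d ≤ X := by rw [hmd]; exact hk.1.2
        have h3 : (m : ℝ) * d ≤ X := by exact_mod_cast this
        linarith
    refine (Finset.sum_le_sum_of_subset_of_nonneg h2 fun _ _ _ => vonMangoldt_nonneg).trans ?_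
    have hdisj2 : Set.PairwiseDisjoint (A : Set ℕ) (fun m : ℕ => ((Finset.Icc 1 ⌊(X : ℝ) / m⌋₊).filter
          (fun d => d.primeFactors ⊆ TT w B)).image (fun d => (m, d))) := by
      intro k _ l _ hkl
      rw [Function.onFun, Finset.disjoint_left]
      intro q hq hq'
      rw [Finset.mem_image] at hq hq'
      obtain ⟨d, _, rfl⟩ := hq
      obtain ⟨d', _, h⟩ := hq'
      exact hkl (congrArg Prod.fst h).symm
    rw [Finset.sum_biUnion hdisj2, Finset.mul_sum]
    refine Finset.sum_le_sum fun m hm => ?_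
    rw [hmem] at hm
    rw [Finset.sum_image (fun a _ b _ h => congrArg Prod.snd h)]
    have hm1 : (1 : ℝ) ≤ m := by exact_mod_cast hm.1.1
    have hmX : (m : ℝ) ≤ X := by exact_mod_cast hm.1.2
    have hm0 : (0 : ℝ) < m := by linarith
    have h3 := hin w η ((X : ℝ) / m) B hw hη0 hη (by rw [le_div_iff₀ hm0]; linarith) hB hs
    refine h3.trans (le_of_eq ?_)
    rw [hfn m (by omega), Real.div_rpow hX0.le hm0.le, Real.rpow_neg hm0.le]
    ring
  -- conclusion
  have hcard : (A.card : ℝ) ≤ Real.sqrt X + 2 / Real.log X * ∑ k ∈ A, Real.log k := by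
    have h1 : A = A.filter (fun k => k * k ≤ X) ∪ A.filter (fun k => ¬ k * k ≤ X) :=
      (Finset.filter_union_filter_not_eq _ A).symm
    have h2 : ((A.filter (fun k => k * k ≤ X)).card : ℝ) ≤ Real.sqrt X := by
      have h3 : A.filter (fun k => k * k ≤ X) ⊆ Finset.Icc 1 (Nat.sqrt X) := by
        intro k hk
        rw [Finset.mem_filter, hmem] at hk
        rw [Finset.mem_Icc]
        exact ⟨hk.1.1.1, Nat.le_sqrt.mpr hk.2⟩
      have h4 := Finset.card_le_card h3
      rw [Nat.card_Icc, Nat.add_sub_cancel] at h4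
      calc ((A.filter (fun k => k * k ≤ X)).card : ℝ) ≤ (Nat.sqrt X : ℝ) := by exact_mod_cast h4
        _ ≤ Real.sqrt X := Real.nat_sqrt_le_real_sqrt
    have h5 : ((A.filter (fun k => ¬ k * k ≤ X)).card : ℝ) ≤ 2 / Real.log X * ∑ k ∈ A, Real.log k := by
      rw [Finset.mul_sum]
      have h6 : ∑ k ∈ A.filter (fun k => ¬ k * k ≤ X), (1 : ℝ) ≤
          ∑ k ∈ A.filter (fun k => ¬ k * k ≤ X), 2 / Real.log X * Real.log k := by
        refine Finset.sum_le_sum fun k hk => ?_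
        rw [Finset.mem_filter, hmem] at hk
        have hk1 : (1 : ℝ) ≤ k := by exact_mod_cast hk.1.1.1
        have h7 : (X : ℝ) ≤ (k : ℝ) * k := by exact_mod_cast (not_le.mp hk.2).le
        have h8 : Real.log X ≤ 2 * Real.log k := by
          have := Real.log_le_log hX0 h7
          rw [Real.log_mul (by linarith) (by linarith)] at this
          linarith
        rw [div_mul_eq_mul_div, le_div_iff₀ hlX]
        linarith
      rw [Finset.sum_const, nsmul_eq_mul, mul_one] at h6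
      refine h6.trans (Finset.sum_le_sum_of_subset_of_nonneg (Finset.filter_subset _ _) fun k hk _ => ?_)
      have := Real.log_natCast_nonneg k
      positivity
    have h9 : A.card ≤ (A.filter (fun k => k * k ≤ X)).card + (A.filter (fun k => ¬ k * k ≤ X)).card := by
      conv_lhs => rw [h1]
      exact Finset.card_union_le _ _
    have h10 : (A.card : ℝ) ≤ ((A.filter (fun k => k * k ≤ X)).card : ℝ) +
        ((A.filter (fun k => ¬ k * k ≤ X)).card : ℝ) := by exact_mod_cast h9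
    linarith
  refine hcard.trans ?_
  have h1 : 2 / Real.log X * ∑ k ∈ A, Real.log k ≤ 2 / Real.log X *
      (C₁ * (w : ℝ) ^ η * (X : ℝ) ^ (1 - η) *
        (C₂ * Real.log w * Real.exp (4 * η * (w : ℝ) ^ η * (Real.log w + Real.log 4)))) := by
    refine mul_le_mul_of_nonneg_left (hlog.trans ?_) (by positivity)
    exact mul_le_mul_of_nonneg_left hS (by positivity)
  have h2 : 2 / Real.log X *
      (C₁ * (w : ℝ) ^ η * (X : ℝ) ^ (1 - η) *
        (C₂ * Real.log w * Real.exp (4 * η * (w : ℝ) ^ η * (Real.log w + Real.log 4)))) =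
      2 * C₁ * C₂ * (Real.log w / Real.log X) * (w : ℝ) ^ η *
      (X : ℝ) ^ (1 - η) * Real.exp (4 * η * (w : ℝ) ^ η * (Real.log w + Real.log 4)) := by
    field_simp
  linarith

end Pool.Agent.Lib.MP_9c4f7e_nt.Rare
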