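import Mathlib
import Pool.Agent.Lib.MP_9c4f7e_nt.Rare.Bad
import Pool.Agent.Lib.MP_9c4f7e_nt.Rare.Cnt

/-!
# Periods up to a power of the greatest prime factor of `k`
-/

set_option autoImplicit false

open Finset

namespace Pool.Agent.Lib.MP_9c4f7e_nt.Rare

/-- The number of primes of a finite set which divide `2^n - 3^m`. -/
lemma card_dvd_le {n m : ℕ} (hn : 0 < n) (hm : m ≤ n) (S : Finset ℕ) (hS : ∀ p ∈ S, p.Prime ∧ p ∣ D n m) :
    (S.card : ℝ) ≤ 2 * n := by
  have hD := D_pos hn m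
  have h2 := sum_log_dvd hD S hS
  have hlog2 : 0 < Real.log 2 := Real.log_pos (by norm_num)
  have h3 : (S.card : ℝ) * Real.log 2 ≤ ∑ p ∈ S, Real.log p := by
    rw [← nsmul_eq_mul, ← Finset.sum_const]
    refine Finset.sum_le_sum fun p hp => Real.log_le_log (by norm_num) ?_
    exact_mod_cast (hS p hp).1.two_le
  have h4 : Real.log (D n m) ≤ Real.log (4 ^ n) := by
    refine Real.log_le_log (by exact_mod_cast hD) ?_
    have h5 : D n m ≤ 3 ^ n := D_le hm
    have h6 : (3 : ℕ) ^ n ≤ 4 ^ n := Nat.pow_le_pow_left (by norm_num) n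
    exact_mod_cast h5.trans h6
  rw [Real.log_pow] at h4
  have h7 : Real.log 4 = 2 * Real.log 2 := by
    rw [show (4 : ℝ) = 2 ^ 2 by norm_num, Real.log_pow]
    norm_num
  rw [h7] at h4
  have h8 : (S.card : ℝ) * Real.log 2 ≤ (2 * n) * Real.log 2 := by linarith
  exact le_of_mul_le_mul_right h8 hlog2

/-- `∑ 1/p` over the primes `p > w` which divide some `2^n - 3^m` with `n ≤ p^(1/3 - e)`. -/
lemma sum_inv_bad (e : ℝ) (he0 : 0 < e) (he1 : e ≤ 1 / 6) : ∃ C : ℝ, 0 < C ∧ ∀ (X w : ℕ) (S : Finset ℕ),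
    1 ≤ w → (∀ p ∈ S, p.Prime ∧ w < p ∧ p ≤ X ∧ Dv p ((p : ℝ) ^ (1 / 3 - e))) →
    ∑ p ∈ S, (1 : ℝ) / p ≤ C * (w : ℝ) ^ (-e) := by
  classical
  have hsm : Summable (fun n : ℕ => ((n : ℝ) ^ (1 + 4 * e))⁻¹) :=
    Real.summable_nat_rpow_inv.mpr (by linarith)
  obtain ⟨Z, hZ⟩ : ∃ Z : ℝ, Z = ∑' n : ℕ, ((n : ℝ) ^ (1 + 4 * e))⁻¹ := ⟨_, rfl⟩
  have hZ0 : 0 ≤ Z := by
    rw [hZ]
    exact tsum_nonneg fun n => by positivity
  refine ⟨4 * Z + 1, by positivity, fun X w S hw hS => ?_⟩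
  have hwr : (1 : ℝ) ≤ w := by exact_mod_cast hw
  have hw0 : (0 : ℝ) < w := by linarith
  have hwe : 0 < (w : ℝ) ^ (-e) := by positivity
  -- one prime
  have h1 : ∀ p ∈ S, (1 : ℝ) / p ≤ ∑ n ∈ Finset.Icc 1 X, ∑ m ∈ Finset.range (n + 1),
      if p ∣ D n m then (w : ℝ) ^ (-e) * (n : ℝ) ^ (-(3 + 4 * e)) else 0 := by
    intro p hp
    obtain ⟨hpp, hwp, hpX, n, m, hn0, hnY, hmn, hd⟩ := hS p hp
    have hp1 : (1 : ℝ) ≤ p := by exact_mod_cast hpp.one_lt.le
    have hp0 : (0 : ℝ) < p := by linarith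
    have hwp' : (w : ℝ) ≤ p := by exact_mod_cast hwp.le
    have hn1 : (1 : ℝ) ≤ n := by exact_mod_cast hn0
    have hnr0 : (0 : ℝ) < n := by linarith
    have hnX : n ≤ X := by
      have h2 : (n : ℝ) ≤ X := by
        calc (n : ℝ) ≤ (p : ℝ) ^ (1 / 3 - e) := hnY
          _ ≤ (p : ℝ) ^ (1 : ℝ) := Real.rpow_le_rpow_of_exponent_le hp1 (by linarith)
          _ = p := Real.rpow_one _
          _ ≤ X := by exact_mod_cast hpX
      exact_mod_cast h2
    have hkey : (1 : ℝ) / p ≤ (w : ℝ) ^ (-e) * (n : ℝ) ^ (-(3 + 4 * e)) := by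
      have h3 : (n : ℝ) ^ (3 + 9 * e) ≤ p := by
        calc (n : ℝ) ^ (3 + 9 * e) ≤ ((p : ℝ) ^ (1 / 3 - e)) ^ (3 + 9 * e) :=
              Real.rpow_le_rpow hnr0.le hnY (by linarith)
          _ = (p : ℝ) ^ ((1 / 3 - e) * (3 + 9 * e)) := by rw [← Real.rpow_mul hp0.le]
          _ ≤ (p : ℝ) ^ (1 : ℝ) := Real.rpow_le_rpow_of_exponent_le hp1 (by nlinarith)
          _ = p := Real.rpow_one _
      have h4 : (w : ℝ) ^ e * (n : ℝ) ^ (3 + 4 * e) ≤ p := by
        calc (w : ℝ) ^ e * (n : ℝ) ^ (3 + 4 * e) ≤ (p : ℝ) ^ e * (p : ℝ) ^ (1 - e) := by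
              apply mul_le_mul
              · exact Real.rpow_le_rpow hw0.le hwp' he0.le
              · calc (n : ℝ) ^ (3 + 4 * e) ≤ (n : ℝ) ^ ((3 + 9 * e) * (1 - e)) :=
                      Real.rpow_le_rpow_of_exponent_le hn1 (by nlinarith)
                  _ = ((n : ℝ) ^ (3 + 9 * e)) ^ (1 - e) := by rw [← Real.rpow_mul hnr0.le]
                  _ ≤ (p : ℝ) ^ (1 - e) := Real.rpow_le_rpow (by positivity) h3 (by linarith)
              · positivity
              · positivity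
          _ = p := by
              rw [← Real.rpow_add hp0]
              norm_num
      rw [Real.rpow_neg hw0.le, Real.rpow_neg hnr0.le, ← mul_inv, one_div]
      exact inv_anti₀ (by positivity) h4
    have hnn : ∀ a b : ℕ, 0 ≤ if p ∣ D a b then (w : ℝ) ^ (-e) * (a : ℝ) ^ (-(3 + 4 * e)) else 0 := by
      intro a b
      split_ifs
      · positivity
      · exact le_rfl
    calc (1 : ℝ) / p ≤ (w : ℝ) ^ (-e) * (n : ℝ) ^ (-(3 + 4 * e)) := hkey
      _ = if p ∣ D n m then (w : ℝ) ^ (-e) * (n : ℝ) ^ (-(3 + 4 * e)) else 0 := by rw [if_pos hd]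
      _ ≤ ∑ m ∈ Finset.range (n + 1), if p ∣ D n m then (w : ℝ) ^ (-e) * (n : ℝ) ^ (-(3 + 4 * e)) else 0 :=
          Finset.single_le_sum
            (f := fun m => if p ∣ D n m then (w : ℝ) ^ (-e) * (n : ℝ) ^ (-(3 + 4 * e)) else 0)
            (fun b _ => hnn n b) (Finset.mem_range.mpr (by omega))
      _ ≤ _ := Finset.single_le_sum
            (f := fun n : ℕ => ∑ m ∈ Finset.range (n + 1),
              if p ∣ D n m then (w : ℝ) ^ (-e) * (n : ℝ) ^ (-(3 + 4 * e)) else 0)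
            (fun a _ => Finset.sum_nonneg fun b _ => hnn a b) (Finset.mem_Icc.mpr ⟨hn0, hnX⟩)
  refine (Finset.sum_le_sum h1).trans ?_
  rw [Finset.sum_comm]
  have h2 : ∀ n ∈ Finset.Icc 1 X, ∑ p ∈ S, ∑ m ∈ Finset.range (n + 1),
      (if p ∣ D n m then (w : ℝ) ^ (-e) * (n : ℝ) ^ (-(3 + 4 * e)) else 0) ≤
      4 * (w : ℝ) ^ (-e) * ((n : ℝ) ^ (1 + 4 * e))⁻¹ := by
    intro n hn
    rw [Finset.mem_Icc] at hn
    have hn1 : (1 : ℝ) ≤ n := by exact_mod_cast hn.1
    have hnr0 : (0 : ℝ) < n := by linarith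
    rw [Finset.sum_comm]
    have h3 : ∀ m ∈ Finset.range (n + 1), ∑ p ∈ S,
        (if p ∣ D n m then (w : ℝ) ^ (-e) * (n : ℝ) ^ (-(3 + 4 * e)) else 0) ≤
        2 * n * ((w : ℝ) ^ (-e) * (n : ℝ) ^ (-(3 + 4 * e))) := by
      intro m hm
      rw [Finset.mem_range] at hm
      rw [← Finset.sum_filter, Finset.sum_const, nsmul_eq_mul]
      refine mul_le_mul_of_nonneg_right ?_ (by positivity)
      refine card_dvd_le (by omega) (by omega : m ≤ n) _ fun p hp => ?_
      rw [Finset.mem_filter] at hp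
      exact ⟨(hS p hp.1).1, hp.2⟩
    refine (Finset.sum_le_sum h3).trans ?_
    rw [Finset.sum_const, Finset.card_range, nsmul_eq_mul]
    have h4 : (n : ℝ) ^ (-(3 + 4 * e)) * n * n = ((n : ℝ) ^ (1 + 4 * e))⁻¹ := by
      rw [← Real.rpow_neg hnr0.le]
      nth_rewrite 2 [← Real.rpow_one (n : ℝ)]
      nth_rewrite 3 [← Real.rpow_one (n : ℝ)]
      rw [← Real.rpow_add hnr0, ← Real.rpow_add hnr0]
      congr 1
      ring
    rw [← h4]
    have h5 : ((n + 1 : ℕ) : ℝ) ≤ 2 * n := by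
      push_cast
      linarith
    calc ((n + 1 : ℕ) : ℝ) * (2 * n * ((w : ℝ) ^ (-e) * (n : ℝ) ^ (-(3 + 4 * e))))
        ≤ (2 * n) * (2 * n * ((w : ℝ) ^ (-e) * (n : ℝ) ^ (-(3 + 4 * e)))) :=
          mul_le_mul_of_nonneg_right h5 (by positivity)
      _ = _ := by ring
  refine (Finset.sum_le_sum h2).trans ?_
  rw [← Finset.mul_sum]
  have h3 : ∑ n ∈ Finset.Icc 1 X, ((n : ℝ) ^ (1 + 4 * e))⁻¹ ≤ Z := by
    rw [hZ]
    exact hsm.sum_le_tsum _ fun n _ => by positivity
  nlinarith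

/-- The set of the `k` with a small exponent pair, relative to their greatest prime factor. -/
def Rel (e : ℝ) (k : ℕ) : Prop :=
  ∃ p : ℕ, p.Prime ∧ p ∣ k ∧ (∀ q : ℕ, q.Prime → q ∣ k → q ≤ p) ∧ Dv k ((p : ℝ) ^ (1 / 3 - e))

open Classical in
theorem big (ε : ℝ) (hε : 0 < ε) : ∃ C c : ℝ, 0 < C ∧ 0 < c ∧ ∀ X : ℕ,
    (((Finset.Icc 1 X).filter fun k => Rel ε k).card : ℝ) ≤ C * X * Real.exp (-(c * Real.sqrt (Real.log X))) := by
  obtain ⟨e, he⟩ : ∃ e : ℝ, e = min ε (1 / 6) := ⟨_, rfl⟩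
  have he0 : 0 < e := by rw [he]; exact lt_min hε (by norm_num)
  have heε : e ≤ ε := by rw [he]; exact min_le_left _ _
  have he1 : e ≤ 1 / 6 := by rw [he]; exact min_le_right _ _
  obtain ⟨C₁, hC₁, hcount⟩ := count
  obtain ⟨C₂, hC₂, hinv⟩ := sum_inv_bad e he0 he1
  obtain ⟨K, hK⟩ : ∃ K : ℝ, K = C₁ * Real.exp 2 * Real.exp (8 * Real.exp 2) := ⟨_, rfl⟩
  have hK0 : 0 < K := by rw [hK]; positivity
  refine ⟨Real.exp 8 + (1 + K + C₂), e, by positivity, he0, fun X => ?_⟩
  have hcard0 : (((Finset.Icc 1 X).filter fun k => Rel ε k).card : ℝ) ≤ X := by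
    have := Finset.card_filter_le (Finset.Icc 1 X) (fun k => Rel ε k)
    rw [Nat.card_Icc, Nat.add_sub_cancel] at this
    exact_mod_cast this
  have hX00 : (0 : ℝ) ≤ X := Nat.cast_nonneg X
  obtain ⟨R, hR⟩ : ∃ R : ℝ, R = Real.sqrt (Real.log X) := ⟨_, rfl⟩
  have hR0 : 0 ≤ R := by rw [hR]; exact Real.sqrt_nonneg _
  rw [← hR]
  by_cases hR8 : R < 8
  · have h1 : 1 ≤ Real.exp 8 * Real.exp (-(e * R)) := by
      rw [← Real.exp_add]
      apply Real.one_le_exp
      nlinarith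
    have h2 : 0 < Real.exp (-(e * R)) := Real.exp_pos _
    have h3 : 0 ≤ (1 + K + C₂) * Real.exp (-(e * R)) := by positivity
    have h4 : 1 ≤ (Real.exp 8 + (1 + K + C₂)) * Real.exp (-(e * R)) := by linarith
    calc _ ≤ (X : ℝ) := hcard0
      _ = 1 * X := by ring
      _ ≤ ((Real.exp 8 + (1 + K + C₂)) * Real.exp (-(e * R))) * X :=
          mul_le_mul_of_nonneg_right h4 hX00
      _ = _ := by ring
  · rw [not_lt] at hR8
    have hlX0 : 0 ≤ Real.log X := Real.log_natCast_nonneg X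
    have hRR : R * R = Real.log X := by rw [hR]; exact Real.mul_self_sqrt hlX0
    have hlX : 0 < Real.log X := by nlinarith
    have hX1 : (1 : ℝ) < X := by
      by_contra hcon
      rw [not_lt] at hcon
      have := Real.log_nonpos hX00 hcon
      linarith
    have hX0 : (0 : ℝ) < X := by linarith
    have hX2 : 2 ≤ X := by
      have : 1 < X := by exact_mod_cast hX1
      omega
    obtain ⟨w, hw⟩ : ∃ w : ℕ, w = ⌈Real.exp R⌉₊ := ⟨_, rfl⟩
    have hexpR : (2 : ℝ) ≤ Real.exp R := by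
      have := Real.add_one_le_exp R
      linarith
    have hw1 : Real.exp R ≤ w := by rw [hw]; exact Nat.le_ceil _
    have hw2 : (w : ℝ) ≤ Real.exp R + 1 := by
      rw [hw]
      exact (Nat.ceil_lt_add_one (Real.exp_pos R).le).le
    have hwr : (2 : ℝ) ≤ w := by linarith
    have hw2' : 2 ≤ w := by exact_mod_cast hwr
    have hw0 : (0 : ℝ) < w := by linarith
    have hlw : Real.log w ≤ R + 1 := by
      have h1 : (w : ℝ) ≤ Real.exp (R + 1) := by
        rw [Real.exp_add]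
        have : (2 : ℝ) ≤ Real.exp 1 := by
          have := Real.exp_one_gt_d9
          linarith
        nlinarith
      have h2 := Real.log_le_log hw0 h1
      rwa [Real.log_exp] at h2
    have hlw0 : 0 < Real.log w := Real.log_pos (by linarith)
    obtain ⟨S, hS⟩ : ∃ S : Finset ℕ, S = (Finset.Ioc w X).filter
      (fun p => p.Prime ∧ Dv p ((p : ℝ) ^ (1 / 3 - e))) := ⟨_, rfl⟩
    have hSp : ∀ p ∈ S, p.Prime ∧ w < p ∧ p ≤ X ∧ Dv p ((p : ℝ) ^ (1 / 3 - e)) := by
      intro p hp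
      rw [hS, Finset.mem_filter, Finset.mem_Ioc] at hp
      exact ⟨hp.2.1, hp.1.1, hp.1.2, hp.2.2⟩
    have hsub : (Finset.Icc 1 X).filter (fun k => Rel ε k) ⊆
        AA X w ∅ ∪ S.biUnion (fun p => (Finset.Ioc 0 X).filter (fun k => p ∣ k)) := by
      intro k hk
      rw [Finset.mem_filter, Finset.mem_Icc] at hk
      obtain ⟨hk1, p, hpp, hpk, hmax, hd⟩ := hk
      have hp1 : (1 : ℝ) ≤ p := by exact_mod_cast hpp.one_lt.le
      have hd' : Dv p ((p : ℝ) ^ (1 / 3 - e)) :=
        (hd.of_dvd hpk).mono (Real.rpow_le_rpow_of_exponent_le hp1 (by linarith))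
      rw [Finset.mem_union]
      by_cases hpw : p ≤ w
      · left
        unfold AA TT
        rw [Finset.mem_filter, Finset.mem_Icc]
        refine ⟨hk1, fun q hq => ?_⟩
        have hqp := Nat.prime_of_mem_primeFactors hq
        have hqk := Nat.dvd_of_mem_primeFactors hq
        rw [Finset.mem_union, Finset.mem_filter, Finset.mem_Icc]
        exact Or.inl ⟨⟨hqp.one_lt.le, (hmax q hqp hqk).trans hpw⟩, hqp⟩
      · right
        rw [Finset.mem_biUnion]
        have hpX : p ≤ X := (Nat.le_of_dvd (by omega) hpk).trans hk1.2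
        refine ⟨p, ?_, ?_⟩
        · rw [hS, Finset.mem_filter, Finset.mem_Ioc]
          exact ⟨⟨by omega, hpX⟩, hpp, hd'⟩
        · rw [Finset.mem_filter, Finset.mem_Ioc]
          exact ⟨⟨by omega, hk1.2⟩, hpk⟩
    have h1 : (((Finset.Icc 1 X).filter fun k => Rel ε k).card : ℝ) ≤ ((AA X w ∅).card : ℝ) +
        ∑ p ∈ S, (X : ℝ) * (1 / p) := by
      have h2 := (Finset.card_le_card hsub).trans (Finset.card_union_le _ _)
      have h3 : (S.biUnion (fun p => (Finset.Ioc 0 X).filter (fun k => p ∣ k))).card ≤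
          ∑ p ∈ S, ((Finset.Ioc 0 X).filter (fun k => p ∣ k)).card := Finset.card_biUnion_le
      have h4 : ((∑ p ∈ S, ((Finset.Ioc 0 X).filter (fun k => p ∣ k)).card : ℕ) : ℝ) ≤
          ∑ p ∈ S, (X : ℝ) * (1 / p) := by
        push_cast
        refine Finset.sum_le_sum fun p _ => ?_
        rw [Nat.Ioc_filter_dvd_card_eq_div]
        calc ((X / p : ℕ) : ℝ) ≤ (X : ℝ) / p := Nat.cast_div_le
          _ = (X : ℝ) * (1 / p) := by ring
      have h5 : (((Finset.Icc 1 X).filter fun k => Rel ε k).card : ℝ) ≤ ((AA X w ∅).card : ℝ) +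
          ((S.biUnion (fun p => (Finset.Ioc 0 X).filter (fun k => p ∣ k))).card : ℝ) := by
        exact_mod_cast h2
      have h6 : ((S.biUnion (fun p => (Finset.Ioc 0 X).filter (fun k => p ∣ k))).card : ℝ) ≤
          ((∑ p ∈ S, ((Finset.Ioc 0 X).filter (fun k => p ∣ k)).card : ℕ) : ℝ) := by
        exact_mod_cast h3
      linarith
    -- bad primes
    have h2 : ∑ p ∈ S, (X : ℝ) * (1 / p) ≤ C₂ * X * Real.exp (-(e * R)) := by
      rw [← Finset.mul_sum]
      have h3 := hinv X w S (by omega) hSp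
      have h4 : (w : ℝ) ^ (-e) ≤ Real.exp (-(e * R)) := by
        calc (w : ℝ) ^ (-e) ≤ (Real.exp R) ^ (-e) :=
              Real.rpow_le_rpow_of_nonpos (Real.exp_pos R) hw1 (by linarith)
          _ = Real.exp (-(e * R)) := by
              rw [← Real.exp_mul]
              congr 1
              ring
      calc (X : ℝ) * ∑ p ∈ S, (1 : ℝ) / p ≤ X * (C₂ * Real.exp (-(e * R))) := by
            refine mul_le_mul_of_nonneg_left (h3.trans ?_) hX00
            exact mul_le_mul_of_nonneg_left h4 hC₂.le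
        _ = _ := by ring
    -- smooth numbers
    have h3 : ((AA X w ∅).card : ℝ) ≤ (1 + K) * X * Real.exp (-(e * R)) := by
      have h4 := hcount X w (1 / R) ∅ hw2' hX2 (by positivity)
        (by rw [div_le_div_iff₀ (by linarith) (by norm_num)]; linarith) (by simp) (by
          rw [Finset.sum_empty]
          positivity)
      have hRpos : 0 < R := by linarith
      have h5 : (w : ℝ) ^ (1 / R) ≤ Real.exp 2 := by
        rw [Real.rpow_def_of_pos hw0]
        apply Real.exp_le_exp.mpr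
        rw [mul_one_div, div_le_iff₀ hRpos]
        linarith
      have h6 : (X : ℝ) ^ (1 - 1 / R) = X * Real.exp (-R) := by
        rw [sub_eq_add_neg, Real.rpow_add hX0, Real.rpow_one, Real.rpow_def_of_pos hX0]
        congr 2
        rw [← hRR]
        field_simp
      have h7 : Real.log w / Real.log X ≤ 1 := by
        rw [div_le_one hlX, ← hRR]
        nlinarith
      have h8 : Real.exp (4 * (1 / R) * (w : ℝ) ^ (1 / R) * (Real.log w + Real.log 4)) ≤
          Real.exp (8 * Real.exp 2) := by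
        apply Real.exp_le_exp.mpr
        have h9 : Real.log 4 ≤ 2 := by
          have : Real.log 4 = 2 * Real.log 2 := by
            rw [show (4 : ℝ) = 2 ^ 2 by norm_num, Real.log_pow]
            norm_num
          have := Real.log_two_lt_d9
          linarith
        have hlog40 : 0 < Real.log 4 := Real.log_pos (by norm_num)
        have h10 : 1 / R * (Real.log w + Real.log 4) ≤ 2 := by
          rw [one_div_mul_eq_div, div_le_iff₀ hRpos]
          linarith
        have h11 : 0 ≤ 1 / R * (Real.log w + Real.log 4) := by positivity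
        calc 4 * (1 / R) * (w : ℝ) ^ (1 / R) * (Real.log w + Real.log 4)
            = 4 * (w : ℝ) ^ (1 / R) * (1 / R * (Real.log w + Real.log 4)) := by ring
          _ ≤ 4 * Real.exp 2 * 2 := by
              apply mul_le_mul _ h10 h11 (by positivity)
              linarith
          _ = 8 * Real.exp 2 := by ring
      have h9 : C₁ * (Real.log w / Real.log X) * (w : ℝ) ^ (1 / R) * (X : ℝ) ^ (1 - 1 / R) *
          Real.exp (4 * (1 / R) * (w : ℝ) ^ (1 / R) * (Real.log w + Real.log 4)) ≤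
          K * X * Real.exp (-R) := by
        calc C₁ * (Real.log w / Real.log X) * (w : ℝ) ^ (1 / R) * (X : ℝ) ^ (1 - 1 / R) *
              Real.exp (4 * (1 / R) * (w : ℝ) ^ (1 / R) * (Real.log w + Real.log 4))
            ≤ C₁ * 1 * Real.exp 2 * (X * Real.exp (-R)) * Real.exp (8 * Real.exp 2) := by
              rw [h6]
              gcongr
          _ = K * X * Real.exp (-R) := by
              rw [hK]
              ring
      have h10 : Real.sqrt X ≤ X * Real.exp (-R) := by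
        have h11 : Real.sqrt X = X * Real.exp (-(1 / 2 * Real.log X)) := by
          rw [Real.sqrt_eq_rpow, Real.rpow_def_of_pos hX0]
          nth_rewrite 2 [← Real.exp_log hX0]
          rw [← Real.exp_add]
          congr 1
          ring
        rw [h11]
        refine mul_le_mul_of_nonneg_left (Real.exp_le_exp.mpr ?_) hX00
        rw [← hRR]
        nlinarith
      have h11 : Real.exp (-R) ≤ Real.exp (-(e * R)) := by
        apply Real.exp_le_exp.mpr
        nlinarith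
      calc ((AA X w ∅).card : ℝ) ≤ X * Real.exp (-R) + K * X * Real.exp (-R) := by linarith
        _ = (1 + K) * X * Real.exp (-R) := by ring
        _ ≤ (1 + K) * X * Real.exp (-(e * R)) := mul_le_mul_of_nonneg_left h11 (by positivity)
    have h4 : 0 ≤ Real.exp 8 * X * Real.exp (-(e * R)) := by positivity
    calc _ ≤ ((AA X w ∅).card : ℝ) + ∑ p ∈ S, (X : ℝ) * (1 / p) := h1
      _ ≤ (1 + K) * X * Real.exp (-(e * R)) + C₂ * X * Real.exp (-(e * R)) := add_le_add h3 h2
      _ ≤ _ := by linarith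

end Pool.Agent.Lib.MP_9c4f7e_nt.Rare
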