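import Mathlib
import Pool.Agent.Lib.MP_9c4f7e_nt.Rare.Bad
import Pool.Agent.Lib.MP_9c4f7e_nt.Rare.Cnt

/-!
# The number of `k ≤ X` dividing some `2^n - 3^m`, `n ≤ Y`
-/

set_option autoImplicit false

open Finset

namespace Pool.Agent.Lib.MP_9c4f7e_nt.Rare

/-- `exp (6 θ - θ u / 18) ≤ K exp (- u log u / 360)` for `θ = log (1 + u / 90)` -/
lemma calc_u {u : ℝ} (hu : 1 ≤ u) :
    6 * Real.log (1 + u / 90) - Real.log (1 + u / 90) * u / 18 ≤ 400 - 1 / 360 * (u * Real.log u) := by
  have hθ0 : 0 ≤ Real.log (1 + u / 90) := Real.log_nonneg (by linarith)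
  have hlu : 0 ≤ Real.log u := Real.log_nonneg hu
  by_cases h : u ≤ 216
  · have h1 : Real.log (1 + u / 90) ≤ u / 90 := by
      have := Real.log_le_sub_one_of_pos (show 0 < 1 + u / 90 by positivity)
      linarith
    have h2 : Real.log u ≤ u - 1 := Real.log_le_sub_one_of_pos (by linarith)
    have h3 : u * Real.log u ≤ 216 * 216 := by nlinarith
    have h4 : 0 ≤ Real.log (1 + u / 90) * u / 18 := by positivity
    linarith
  · rw [not_le] at h
    have h1 : Real.log u ≤ 10 * Real.log (1 + u / 90) := by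
      have h2 : u ≤ (1 + u / 90) ^ 10 := by
        have h3 : (u / 90) ^ 10 ≤ (1 + u / 90) ^ 10 :=
          pow_le_pow_left₀ (by positivity) (by linarith) 10
        have h4 : u ≤ (u / 90) ^ 10 := by
          have h5 : (216 : ℝ) ^ 9 ≤ u ^ 9 := pow_le_pow_left₀ (by norm_num) h.le 9
          have h6 : (90 : ℝ) ^ 10 ≤ 216 ^ 9 := by norm_num
          rw [div_pow, le_div_iff₀ (by positivity)]
          have h7 : u ^ 10 = u ^ 9 * u := by ring
          rw [h7, mul_comm u]
          exact mul_le_mul_of_nonneg_right (h6.trans h5) (by linarith)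
        linarith
      have h8 := Real.log_le_log (by linarith) h2
      rw [Real.log_pow] at h8
      exact_mod_cast h8
    have h9 : 6 * Real.log (1 + u / 90) ≤ Real.log (1 + u / 90) * u / 36 := by
      rw [le_div_iff₀ (by norm_num)]
      nlinarith
    have h10 : u * Real.log u ≤ 10 * (Real.log (1 + u / 90) * u) := by nlinarith
    linarith

open Classical in
/-- The number of `k ≤ X` dividing some `2^n - 3^m`, `n ≤ Y`. -/
noncomputable def NN (X : ℕ) (Y : ℝ) : ℕ := ((Finset.Icc 1 X).filter fun k => Dv k Y).card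

theorem unif : ∃ C : ℝ, 0 < C ∧ ∀ (X : ℕ) (Y : ℝ), 2 ≤ Y → Real.log X ≤ Y → Y ≤ X →
    (NN X Y : ℝ) ≤ C * X * Real.exp (-(1 / 360 * (Real.log X / Real.log Y *
      Real.log (Real.log X / Real.log Y)))) := by
  classical
  obtain ⟨C₁, hC₁, hcount⟩ := count
  refine ⟨1 + 9 * C₁ * Real.exp 400, by positivity, fun X Y hY hXY hYX => ?_⟩
  have hXr : (2 : ℝ) ≤ X := hY.trans hYX
  have hX2 : 2 ≤ X := by exact_mod_cast hXr
  have hX0 : (0 : ℝ) < X := by linarith
  have hY0 : 0 < Y := by linarith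
  have hlX : 0 < Real.log X := Real.log_pos (by linarith)
  have hlY : 0 < Real.log Y := Real.log_pos (by linarith)
  have hlog2 : (0.6931471803 : ℝ) < Real.log 2 := Real.log_two_gt_d9
  have hlY2 : Real.log 2 ≤ Real.log Y := Real.log_le_log (by norm_num) hY
  obtain ⟨u, hu⟩ : ∃ u : ℝ, u = Real.log X / Real.log Y := ⟨_, rfl⟩
  rw [← hu]
  have huX : u * Real.log Y = Real.log X := by rw [hu]; field_simp
  have hu1 : 1 ≤ u := by
    rw [hu, le_div_iff₀ hlY, one_mul]
    exact Real.log_le_log hY0 hYX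
  have huY : u ≤ 2 * Y := by
    rw [hu, div_le_iff₀ hlY]
    nlinarith
  -- the threshold w
  obtain ⟨w, hw⟩ : ∃ w : ℕ, w = ⌈Y ^ 8⌉₊ := ⟨_, rfl⟩
  have hY8 : (256 : ℝ) ≤ Y ^ 8 := by
    calc (256 : ℝ) = 2 ^ 8 := by norm_num
      _ ≤ Y ^ 8 := pow_le_pow_left₀ (by norm_num) hY 8
  have hw1 : Y ^ 8 ≤ w := by rw [hw]; exact Nat.le_ceil _
  have hw2 : (w : ℝ) ≤ Y ^ 8 + 1 := by
    rw [hw]
    exact (Nat.ceil_lt_add_one (by positivity)).le
  have hwr : (2 : ℝ) ≤ w := by linarith
  have hw2' : 2 ≤ w := by exact_mod_cast hwr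
  have hw0 : (0 : ℝ) < w := by linarith
  have hlw : Real.log w ≤ 9 * Real.log Y := by
    have h1 : (w : ℝ) ≤ Y ^ 9 := by
      have : Y ^ 9 = Y ^ 8 * Y := by ring
      nlinarith
    have h2 := Real.log_le_log hw0 h1
    rw [Real.log_pow] at h2
    exact_mod_cast h2
  have hlw0 : 0 < Real.log w := Real.log_pos (by linarith)
  -- the bad primes
  obtain ⟨B, hB⟩ : ∃ B : Finset ℕ, B = (Finset.Ioc w X).filter (fun p => p.Prime ∧ Dv p Y) := ⟨_, rfl⟩
  have hBp : ∀ p ∈ B, p.Prime ∧ w < p := by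
    intro p hp
    rw [hB, Finset.mem_filter, Finset.mem_Ioc] at hp
    exact ⟨hp.2.1, hp.1.1⟩
  have hBs : ∑ p ∈ B, Real.log p ≤ 3 * (w : ℝ) ^ (3 / 8 : ℝ) := by
    have h1 := sum_log_bad (by linarith : 1 ≤ Y) B (fun p hp => by
      rw [hB, Finset.mem_filter] at hp
      exact hp.2)
    have h2 : Y ^ 3 ≤ (w : ℝ) ^ (3 / 8 : ℝ) := by
      have h3 : (Y ^ 8) ^ (3 / 8 : ℝ) ≤ (w : ℝ) ^ (3 / 8 : ℝ) :=
        Real.rpow_le_rpow (by positivity) hw1 (by norm_num)
      have h4 : (Y ^ 8) ^ (3 / 8 : ℝ) = Y ^ 3 := by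
        rw [← Real.rpow_natCast, ← Real.rpow_mul hY0.le, ← Real.rpow_natCast]
        norm_num
      linarith
    linarith
  have hsub : (Finset.Icc 1 X).filter (fun k => Dv k Y) ⊆ AA X w B := by
    intro k hk
    rw [Finset.mem_filter, Finset.mem_Icc] at hk
    unfold AA TT
    rw [Finset.mem_filter, Finset.mem_Icc]
    refine ⟨hk.1, fun p hp => ?_⟩
    have hpp := Nat.prime_of_mem_primeFactors hp
    have hpk := Nat.dvd_of_mem_primeFactors hp
    rw [Finset.mem_union, Finset.mem_filter, Finset.mem_Icc, hB, Finset.mem_filter, Finset.mem_Ioc]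
    by_cases hpw : p ≤ w
    · exact Or.inl ⟨⟨hpp.one_lt.le, hpw⟩, hpp⟩
    · exact Or.inr ⟨⟨by omega, (Nat.le_of_dvd (by omega) hpk).trans hk.1.2⟩, hpp, hk.2.of_dvd hpk⟩
  have hN : (NN X Y : ℝ) ≤ ((AA X w B).card : ℝ) := by
    unfold NN
    exact_mod_cast Finset.card_le_card hsub
  -- the choice of η
  obtain ⟨θ, hθ⟩ : ∃ θ : ℝ, θ = Real.log (1 + u / 90) := ⟨_, rfl⟩
  have hθ0 : 0 < θ := by
    rw [hθ]
    exact Real.log_pos (by linarith)
  have heθ : Real.exp θ = 1 + u / 90 := by rw [hθ, Real.exp_log (by linarith)]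
  have hθY : θ ≤ Real.log Y := by
    rw [hθ]
    exact Real.log_le_log (by linarith) (by linarith)
  obtain ⟨η, hη⟩ : ∃ η : ℝ, η = θ / (9 * Real.log Y) := ⟨_, rfl⟩
  have hη0 : 0 < η := by rw [hη]; positivity
  have hη1 : η ≤ 1 / 8 := by
    rw [hη, div_le_iff₀ (by positivity)]
    linarith
  have hηY : η * (9 * Real.log Y) = θ := by
    rw [hη]
    field_simp
  have h1 := hcount X w η B hw2' hX2 hη0 hη1 hBp hBs
  -- estimates
  have hwη : (w : ℝ) ^ η ≤ Real.exp θ := by
    rw [Real.rpow_def_of_pos hw0]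
    apply Real.exp_le_exp.mpr
    nlinarith
  have hXη : (X : ℝ) ^ (1 - η) = X * Real.exp (-(θ * u / 9)) := by
    rw [sub_eq_add_neg, Real.rpow_add hX0, Real.rpow_one, Real.rpow_def_of_pos hX0]
    congr 2
    have : θ * u / 9 = η * Real.log X := by
      rw [← hηY, ← huX]
      ring
    rw [this]
    ring
  have hlog4 : Real.log 4 ≤ 2 * Real.log Y := by
    have : Real.log 4 = 2 * Real.log 2 := by
      rw [show (4 : ℝ) = 2 ^ 2 by norm_num, Real.log_pow]
      norm_num
    linarith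
  have hlog40 : 0 < Real.log 4 := Real.log_pos (by norm_num)
  have hexp : Real.exp (4 * η * (w : ℝ) ^ η * (Real.log w + Real.log 4)) ≤
      Real.exp (5 * θ * (1 + u / 90)) := by
    apply Real.exp_le_exp.mpr
    have h2 : η * (Real.log w + Real.log 4) ≤ 11 / 9 * θ := by
      have : Real.log w + Real.log 4 ≤ 11 * Real.log Y := by linarith
      calc η * (Real.log w + Real.log 4) ≤ η * (11 * Real.log Y) :=
            mul_le_mul_of_nonneg_left this hη0.le
        _ = 11 / 9 * (η * (9 * Real.log Y)) := by ring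
        _ = 11 / 9 * θ := by rw [hηY]
    rw [heθ] at hwη
    have h3 : 0 ≤ (w : ℝ) ^ η := by positivity
    have h4 : 0 ≤ η * (Real.log w + Real.log 4) := by positivity
    calc 4 * η * (w : ℝ) ^ η * (Real.log w + Real.log 4)
        = 4 * (w : ℝ) ^ η * (η * (Real.log w + Real.log 4)) := by ring
      _ ≤ 4 * (1 + u / 90) * (11 / 9 * θ) := by
          apply mul_le_mul _ h2 h4 (by positivity)
          linarith
      _ ≤ 5 * θ * (1 + u / 90) := by
          have : 0 ≤ (1 + u / 90) * θ := by positivity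
          linarith
  have hratio : Real.log w / Real.log X ≤ 9 := by
    rw [div_le_iff₀ hlX]
    have : Real.log Y ≤ Real.log X := Real.log_le_log hY0 hYX
    linarith
  have hmain : C₁ * (Real.log w / Real.log X) * (w : ℝ) ^ η * (X : ℝ) ^ (1 - η) *
      Real.exp (4 * η * (w : ℝ) ^ η * (Real.log w + Real.log 4)) ≤
      9 * C₁ * Real.exp 400 * X * Real.exp (-(1 / 360 * (u * Real.log u))) := by
    calc C₁ * (Real.log w / Real.log X) * (w : ℝ) ^ η * (X : ℝ) ^ (1 - η) *
          Real.exp (4 * η * (w : ℝ) ^ η * (Real.log w + Real.log 4))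
        ≤ C₁ * 9 * Real.exp θ * (X * Real.exp (-(θ * u / 9))) * Real.exp (5 * θ * (1 + u / 90)) := by
          rw [hXη]
          gcongr
      _ = 9 * C₁ * X * (Real.exp θ * Real.exp (-(θ * u / 9)) * Real.exp (5 * θ * (1 + u / 90))) := by ring
      _ = 9 * C₁ * X * Real.exp (6 * θ - θ * u / 18) := by
          rw [← Real.exp_add, ← Real.exp_add]
          congr 2
          ring
      _ ≤ 9 * C₁ * X * (Real.exp 400 * Real.exp (-(1 / 360 * (u * Real.log u)))) := by
          rw [← Real.exp_add]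
          refine mul_le_mul_of_nonneg_left (Real.exp_le_exp.mpr ?_) (by positivity)
          have := calc_u hu1
          rw [← hθ] at this
          linarith
      _ = _ := by ring
  have hsqrt : Real.sqrt X ≤ X * Real.exp (-(1 / 360 * (u * Real.log u))) := by
    have h2 : Real.log u ≤ 2 * Real.log Y := by
      have h3 : Real.log u ≤ Real.log (2 * Y) := Real.log_le_log (by linarith) huY
      rw [Real.log_mul (by norm_num) hY0.ne'] at h3
      linarith
    have h3 : u * Real.log u ≤ 2 * Real.log X := by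
      rw [← huX]
      nlinarith
    have h4 : Real.exp (-(1 / 2 * Real.log X)) ≤ Real.exp (-(1 / 360 * (u * Real.log u))) := by
      apply Real.exp_le_exp.mpr
      linarith
    have h5 : Real.sqrt X = X * Real.exp (-(1 / 2 * Real.log X)) := by
      rw [Real.sqrt_eq_rpow, Real.rpow_def_of_pos hX0]
      nth_rewrite 2 [← Real.exp_log hX0]
      rw [← Real.exp_add]
      congr 1
      ring
    rw [h5]
    exact mul_le_mul_of_nonneg_left h4 hX0.le
  calc (NN X Y : ℝ) ≤ ((AA X w B).card : ℝ) := hN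
    _ ≤ _ := h1
    _ ≤ X * Real.exp (-(1 / 360 * (u * Real.log u))) +
        9 * C₁ * Real.exp 400 * X * Real.exp (-(1 / 360 * (u * Real.log u))) := add_le_add hsqrt hmain
    _ = _ := by ring

end Pool.Agent.Lib.MP_9c4f7e_nt.Rare
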