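import Mathlib
import Pool.Agent.Lib.MP_9c4f7e_nt.Rare.Unif

/-!
# Periods up to a power of `log X`
-/

set_option autoImplicit false

open Finset Filter Topology Pool.Agent.Lib.Sieve

namespace Pool.Agent.Lib.MP_9c4f7e_nt.Rare

/-- the sum of `p^(-σ)` over the prime factors of `N` -/
lemma sum_rpow_le (T : Finset ℕ) (hT : ∀ p ∈ T, 1 ≤ p) {σ V : ℝ} (hσ0 : 0 < σ) (hσ1 : σ < 1)
    (hV : 1 ≤ V) (hc : (T.card : ℝ) ≤ V) :
    ∑ p ∈ T, (p : ℝ) ^ (-σ) ≤ V ^ (1 - σ) * (2 + Real.log V) := by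
  classical
  have hV0 : 0 < V := by linarith
  have hV1 : 0 < V ^ (1 - σ) := by positivity
  have h1 : ∑ p ∈ T.filter (fun p : ℕ => (p : ℝ) ≤ V), (p : ℝ) ^ (-σ) ≤ V ^ (1 - σ) * (1 + Real.log V) := by
    have h2 : ∀ p ∈ T.filter (fun p : ℕ => (p : ℝ) ≤ V), (p : ℝ) ^ (-σ) ≤ V ^ (1 - σ) * (p : ℝ)⁻¹ := by
      intro p hp
      rw [Finset.mem_filter] at hp
      have hp1 : (1 : ℝ) ≤ p := by exact_mod_cast hT p hp.1
      have hp0 : (0 : ℝ) < p := by linarith
      have h3 : (p : ℝ) ^ (-σ) = (p : ℝ) ^ (1 - σ) * (p : ℝ)⁻¹ := by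
        rw [← Real.rpow_neg_one, ← Real.rpow_add hp0]
        congr 1
        ring
      rw [h3]
      refine mul_le_mul_of_nonneg_right ?_ (by positivity)
      exact Real.rpow_le_rpow hp0.le hp.2 (by linarith)
    refine (Finset.sum_le_sum h2).trans ?_
    rw [← Finset.mul_sum]
    refine mul_le_mul_of_nonneg_left ?_ hV1.le
    have h4 : ∑ p ∈ T.filter (fun p : ℕ => (p : ℝ) ≤ V), (p : ℝ)⁻¹ ≤
        ∑ p ∈ Finset.Icc 1 ⌊V⌋₊, (p : ℝ)⁻¹ := by
      apply Finset.sum_le_sum_of_subset_of_nonneg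
      · intro p hp
        rw [Finset.mem_filter] at hp
        rw [Finset.mem_Icc]
        exact ⟨hT p hp.1, Nat.le_floor hp.2⟩
      · intro _ _ _
        positivity
    have h5 := harmonic_floor_le_one_add_log V hV
    rw [harmonic_eq_sum_Icc] at h5
    push_cast at h5
    linarith
  have h6 : ∑ p ∈ T.filter (fun p : ℕ => ¬ (p : ℝ) ≤ V), (p : ℝ) ^ (-σ) ≤ V ^ (1 - σ) := by
    have h7 : ∀ p ∈ T.filter (fun p : ℕ => ¬ (p : ℝ) ≤ V), (p : ℝ) ^ (-σ) ≤ V ^ (-σ) := by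
      intro p hp
      rw [Finset.mem_filter, not_le] at hp
      exact Real.rpow_le_rpow_of_nonpos hV0 hp.2.le (by linarith)
    refine (Finset.sum_le_sum h7).trans ?_
    rw [Finset.sum_const, nsmul_eq_mul]
    have h8 : ((T.filter (fun p : ℕ => ¬ (p : ℝ) ≤ V)).card : ℝ) ≤ V := by
      refine le_trans ?_ hc
      exact_mod_cast Finset.card_filter_le _ _
    have h9 : V ^ (1 - σ) = V * V ^ (-σ) := by
      rw [sub_eq_add_neg, Real.rpow_add hV0, Real.rpow_one]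
    rw [h9]
    exact mul_le_mul_of_nonneg_right h8 (by positivity)
  have h10 : ∑ p ∈ T, (p : ℝ) ^ (-σ) = ∑ p ∈ T.filter (fun p : ℕ => (p : ℝ) ≤ V), (p : ℝ) ^ (-σ) +
      ∑ p ∈ T.filter (fun p : ℕ => ¬ (p : ℝ) ≤ V), (p : ℝ) ^ (-σ) :=
    (Finset.sum_filter_add_sum_filter_not T _ _).symm
  rw [h10]
  nlinarith

/-- the number of divisors up to `X` of an integer `N ≤ 2^V` -/
lemma divisors_le (σ : ℝ) (hσ0 : 0 < σ) (hσ1 : σ < 1) : ∃ κ : ℝ, 0 < κ ∧ ∀ (X N : ℕ) (V : ℝ), 1 ≤ V → 1 ≤ X →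
    0 < N → Real.log N ≤ V * Real.log 2 →
    (((Finset.Icc 1 X).filter (fun k => k ∣ N)).card : ℝ) ≤
      (X : ℝ) ^ σ * Real.exp (κ * (V ^ (1 - σ) * (2 + Real.log V))) := by
  classical
  have hτ1 : (2 : ℝ) ^ (-σ) < 1 := Real.rpow_lt_one_of_one_lt_of_neg (by norm_num) (by linarith)
  refine ⟨(1 - (2 : ℝ) ^ (-σ))⁻¹, inv_pos.mpr (by linarith), fun X N V hV hX hN hNV => ?_⟩
  have hX0 : (0 : ℝ) < X := by exact_mod_cast hX
  have hlog2 : 0 < Real.log 2 := Real.log_pos (by norm_num)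
  obtain ⟨f, hf⟩ : ∃ f : ℕ → ℝ, f = fun n : ℕ => if n = 0 then 0 else (n : ℝ) ^ (-σ) := ⟨_, rfl⟩
  have hfn : ∀ n, n ≠ 0 → f n = (n : ℝ) ^ (-σ) := by
    intro n hn
    rw [hf]
    simp only [if_neg hn]
  have hf0 : ∀ n, 0 ≤ f n := by
    intro n
    rw [hf]
    simp only
    split_ifs <;> positivity
  have hmul : ∀ m n, f (m * n) = f m * f n := by
    intro m n
    by_cases hm : m = 0
    · subst hm; simp [hf]
    by_cases hn : n = 0
    · subst hn; simp [hf]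
    rw [hfn _ (mul_ne_zero hm hn), hfn m hm, hfn n hn]
    push_cast
    rw [Real.mul_rpow (Nat.cast_nonneg m) (Nat.cast_nonneg n)]
  have hTp : ∀ p ∈ N.primeFactors, p.Prime := fun p hp => Nat.prime_of_mem_primeFactors hp
  have hle : ∀ p ∈ N.primeFactors, f p ≤ (2 : ℝ) ^ (-σ) := by
    intro p hp
    rw [hfn p (hTp p hp).ne_zero]
    have hp2 : (2 : ℝ) ≤ p := by exact_mod_cast (hTp p hp).two_le
    exact Real.rpow_le_rpow_of_nonpos (by norm_num) hp2 (by linarith)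
  have hlt : ∀ p ∈ N.primeFactors, f p < 1 := fun p hp => (hle p hp).trans_lt hτ1
  have hsum := sum_primeFactors_subset_le f hf0 (by rw [hf]; simp) hmul X N.primeFactors hTp hlt
  -- Rankin
  have h1 : (((Finset.Icc 1 X).filter (fun k => k ∣ N)).card : ℝ) ≤
      (X : ℝ) ^ σ * ∑ m ∈ Finset.Icc 1 X with m.primeFactors ⊆ N.primeFactors, f m := by
    have h2 : (((Finset.Icc 1 X).filter (fun k => k ∣ N)).card : ℝ) ≤
        ∑ m ∈ Finset.Icc 1 X with m.primeFactors ⊆ N.primeFactors, (1 : ℝ) := by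
      rw [Finset.sum_const, nsmul_eq_mul, mul_one]
      norm_cast
      apply Finset.card_le_card
      intro k hk
      rw [Finset.mem_filter] at hk ⊢
      exact ⟨hk.1, Nat.primeFactors_mono hk.2 hN.ne'⟩
    refine h2.trans ?_
    rw [Finset.mul_sum]
    refine Finset.sum_le_sum fun m hm => ?_
    rw [Finset.mem_filter, Finset.mem_Icc] at hm
    have hm1 : (1 : ℝ) ≤ m := by exact_mod_cast hm.1.1
    have hmX : (m : ℝ) ≤ X := by exact_mod_cast hm.1.2
    rw [hfn m (by omega), Real.rpow_neg (by linarith), ← div_eq_mul_inv, one_le_div (by positivity)]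
    exact Real.rpow_le_rpow (by linarith) hmX (by linarith)
  -- number of prime factors
  have hcard : (N.primeFactors.card : ℝ) ≤ V := by
    have h2 := sum_log_dvd hN N.primeFactors (fun p hp =>
      ⟨Nat.prime_of_mem_primeFactors hp, Nat.dvd_of_mem_primeFactors hp⟩)
    have h3 : (N.primeFactors.card : ℝ) * Real.log 2 ≤ ∑ p ∈ N.primeFactors, Real.log p := by
      rw [← nsmul_eq_mul, ← Finset.sum_const]
      refine Finset.sum_le_sum fun p hp => Real.log_le_log (by norm_num) ?_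
      exact_mod_cast (hTp p hp).two_le
    have h4 : (N.primeFactors.card : ℝ) * Real.log 2 ≤ V * Real.log 2 := by linarith
    exact le_of_mul_le_mul_right h4 hlog2
  have h5 := sum_rpow_le N.primeFactors (fun p hp => (hTp p hp).one_lt.le) hσ0 hσ1 hV hcard
  have hprod : ∏ p ∈ N.primeFactors, (1 - f p)⁻¹ ≤
      Real.exp ((1 - (2 : ℝ) ^ (-σ))⁻¹ * (V ^ (1 - σ) * (2 + Real.log V))) := by
    have h6 : ∀ p ∈ N.primeFactors, (1 - f p)⁻¹ ≤ Real.exp ((1 - (2 : ℝ) ^ (-σ))⁻¹ * (p : ℝ) ^ (-σ)) := by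
      intro p hp
      have h7 := hle p hp
      have h8 := hf0 p
      have h9 : 0 < 1 - f p := by linarith
      have h10 : (1 - f p)⁻¹ = 1 + (1 - f p)⁻¹ * f p := by field_simp; ring
      have h11 : (1 - f p)⁻¹ ≤ (1 - (2 : ℝ) ^ (-σ))⁻¹ := by
        apply inv_anti₀ (by linarith)
        linarith
      have h12 : (1 - f p)⁻¹ * f p ≤ (1 - (2 : ℝ) ^ (-σ))⁻¹ * f p := mul_le_mul_of_nonneg_right h11 h8
      have h13 := Real.add_one_le_exp ((1 - (2 : ℝ) ^ (-σ))⁻¹ * f p)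
      rw [hfn p (hTp p hp).ne_zero] at h10 h12 h13 ⊢
      linarith
    calc ∏ p ∈ N.primeFactors, (1 - f p)⁻¹ ≤
          ∏ p ∈ N.primeFactors, Real.exp ((1 - (2 : ℝ) ^ (-σ))⁻¹ * (p : ℝ) ^ (-σ)) := by
          apply Finset.prod_le_prod
          · intro p hp
            have := hlt p hp
            exact inv_nonneg.mpr (by linarith)
          · exact h6
      _ = Real.exp ((1 - (2 : ℝ) ^ (-σ))⁻¹ * ∑ p ∈ N.primeFactors, (p : ℝ) ^ (-σ)) := by
          rw [← Real.exp_sum, Finset.mul_sum]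
      _ ≤ _ := by
          apply Real.exp_le_exp.mpr
          exact mul_le_mul_of_nonneg_left h5 (inv_nonneg.mpr (by linarith))
  exact h1.trans (mul_le_mul_of_nonneg_left (hsum.trans hprod) (by positivity))

/-- The number of `k ≤ X` dividing some `2^n - 3^m`, `n ≤ Y`, through divisors. -/
lemma NN_le (σ : ℝ) (hσ0 : 0 < σ) (hσ1 : σ < 1) : ∃ κ : ℝ, 0 < κ ∧ ∀ (X : ℕ) (Y : ℝ), 1 ≤ Y → 1 ≤ X →
    (NN X Y : ℝ) ≤ 2 * Y ^ 2 * ((X : ℝ) ^ σ *
      Real.exp (κ * ((2 * Y) ^ (1 - σ) * (2 + Real.log (2 * Y))))) := by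
  classical
  obtain ⟨κ, hκ, h1⟩ := divisors_le σ hσ0 hσ1
  refine ⟨κ, hκ, fun X Y hY hX => ?_⟩
  have hX0 : (0 : ℝ) < X := by exact_mod_cast hX
  obtain ⟨y, hy⟩ : ∃ y : ℕ, y = ⌊Y⌋₊ := ⟨_, rfl⟩
  have hy1 : 1 ≤ y := by
    rw [hy]
    exact Nat.le_floor (by exact_mod_cast hY)
  have hyr : (1 : ℝ) ≤ y := by exact_mod_cast hy1
  have hyY : (y : ℝ) ≤ Y := by
    rw [hy]
    exact Nat.floor_le (by linarith)
  obtain ⟨M, hM⟩ : ∃ M : ℝ, M = (X : ℝ) ^ σ * Real.exp (κ * ((2 * Y) ^ (1 - σ) * (2 + Real.log (2 * Y)))) :=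
    ⟨_, rfl⟩
  have hM0 : 0 ≤ M := by rw [hM]; positivity
  rw [← hM]
  have h2 : (Finset.Icc 1 X).filter (fun k => Dv k Y) ⊆
      (Finset.Icc 1 y).biUnion (fun n => (Finset.range (n + 1)).biUnion
        (fun m => (Finset.Icc 1 X).filter (fun k => k ∣ D n m))) := by
    intro k hk
    rw [Finset.mem_filter] at hk
    obtain ⟨hk1, n, m, hn0, hnY, hmn, hd⟩ := hk
    rw [Finset.mem_biUnion]
    refine ⟨n, ?_, ?_⟩
    · rw [Finset.mem_Icc, hy]
      exact ⟨hn0, Nat.le_floor hnY⟩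
    · rw [Finset.mem_biUnion]
      refine ⟨m, Finset.mem_range.mpr (by omega), ?_⟩
      rw [Finset.mem_filter]
      exact ⟨hk1, hd⟩
  have h3 : ∀ n ∈ Finset.Icc 1 y, ∀ m ∈ Finset.range (n + 1),
      (((Finset.Icc 1 X).filter (fun k => k ∣ D n m)).card : ℝ) ≤ M := by
    intro n hn m hm
    rw [Finset.mem_Icc] at hn
    rw [Finset.mem_range] at hm
    have hD := D_pos (by omega : 0 < n) m
    rw [hM]
    refine h1 X (D n m) (2 * Y) (by linarith) hX hD ?_
    have h4 : Real.log (D n m) ≤ Real.log (4 ^ n) := by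
      refine Real.log_le_log (by exact_mod_cast hD) ?_
      have h5 : D n m ≤ 3 ^ n := D_le (by omega)
      have h6 : (3 : ℕ) ^ n ≤ 4 ^ n := Nat.pow_le_pow_left (by norm_num) n
      exact_mod_cast h5.trans h6
    rw [Real.log_pow] at h4
    have h7 : Real.log 4 = 2 * Real.log 2 := by
      rw [show (4 : ℝ) = 2 ^ 2 by norm_num, Real.log_pow]
      norm_num
    have h8 : (n : ℝ) ≤ Y := le_trans (by exact_mod_cast hn.2) hyY
    have hlog2 : 0 < Real.log 2 := Real.log_pos (by norm_num)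
    rw [h7] at h4
    nlinarith
  have h9 : (NN X Y : ℝ) ≤ ∑ n ∈ Finset.Icc 1 y, ∑ m ∈ Finset.range (n + 1),
      (((Finset.Icc 1 X).filter (fun k => k ∣ D n m)).card : ℝ) := by
    unfold NN
    have h10 := (Finset.card_le_card h2).trans Finset.card_biUnion_le
    have h11 : ∑ n ∈ Finset.Icc 1 y, ((Finset.range (n + 1)).biUnion
        (fun m => (Finset.Icc 1 X).filter (fun k => k ∣ D n m))).card ≤
        ∑ n ∈ Finset.Icc 1 y, ∑ m ∈ Finset.range (n + 1),
          ((Finset.Icc 1 X).filter (fun k => k ∣ D n m)).card :=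
      Finset.sum_le_sum fun n _ => Finset.card_biUnion_le
    exact_mod_cast h10.trans h11
  refine h9.trans ?_
  have h12 : ∀ n ∈ Finset.Icc 1 y, ∑ m ∈ Finset.range (n + 1),
      (((Finset.Icc 1 X).filter (fun k => k ∣ D n m)).card : ℝ) ≤ 2 * y * M := by
    intro n hn
    refine (Finset.sum_le_sum (h3 n hn)).trans ?_
    rw [Finset.sum_const, Finset.card_range, nsmul_eq_mul]
    refine mul_le_mul_of_nonneg_right ?_ hM0
    rw [Finset.mem_Icc] at hn
    have : (n : ℝ) ≤ y := by exact_mod_cast hn.2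
    push_cast
    linarith
  refine (Finset.sum_le_sum h12).trans ?_
  rw [Finset.sum_const, Nat.card_Icc, Nat.add_sub_cancel, nsmul_eq_mul]
  have h13 : (y : ℝ) * (2 * y * M) = 2 * (y : ℝ) ^ 2 * M := by ring
  rw [h13]
  have h14 : (y : ℝ) ^ 2 ≤ Y ^ 2 := pow_le_pow_left₀ (by linarith) hyY 2
  nlinarith

/-- the asymptotic inequality -/
lemma eventually_small {A δ κ c : ℝ} (hA : 0 < A) (hδ : 0 < δ) (hκ : 0 < κ) (hc : 0 < c) :
    ∀ᶠ L : ℝ in atTop, Real.log 2 + 2 * A * Real.log L +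
      κ * (2 * L ^ (1 - 2 * δ) * (3 + A * Real.log L)) ≤ c * L := by
  have h1 : ∀ᶠ L : ℝ in atTop, Real.log L ≤ L ^ (δ / 2) := by
    have h := (isLittleO_log_rpow_atTop (half_pos hδ)).bound (c := 1) (by norm_num)
    filter_upwards [h, eventually_ge_atTop (1 : ℝ)] with L hL hL1
    rwa [one_mul, Real.norm_of_nonneg (Real.log_nonneg hL1),
      Real.norm_of_nonneg (Real.rpow_nonneg (by linarith) _)] at hL
  have h2 : ∀ᶠ L : ℝ in atTop, 3 + A ≤ L ^ (δ / 2) :=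
    (tendsto_rpow_atTop (half_pos hδ)).eventually (eventually_ge_atTop _)
  have h3 : ∀ᶠ L : ℝ in atTop, 4 * κ / c ≤ L ^ δ :=
    (tendsto_rpow_atTop hδ).eventually (eventually_ge_atTop _)
  have h4 : ∀ᶠ L : ℝ in atTop, Real.log L ≤ c / (8 * A) * L := by
    have h := (isLittleO_log_rpow_atTop (show (0 : ℝ) < 1 by norm_num)).bound
      (c := c / (8 * A)) (by positivity)
    filter_upwards [h, eventually_ge_atTop (1 : ℝ)] with L hL hL1
    rwa [Real.norm_of_nonneg (Real.log_nonneg hL1),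
      Real.norm_of_nonneg (Real.rpow_nonneg (by linarith) _), Real.rpow_one] at hL
  filter_upwards [h1, h2, h3, h4, eventually_ge_atTop (max 1 (4 * Real.log 2 / c))] with L g1 g2 g3 g4 g5
  have hL1 : 1 ≤ L := (le_max_left _ _).trans g5
  have hL0 : 0 < L := by linarith
  have g6 : 4 * Real.log 2 / c ≤ L := (le_max_right _ _).trans g5
  rw [div_le_iff₀ hc] at g6
  rw [div_le_iff₀ hc] at g3
  have g7 : 2 * A * Real.log L ≤ c / 4 * L := by
    calc 2 * A * Real.log L ≤ 2 * A * (c / (8 * A) * L) := by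
          apply mul_le_mul_of_nonneg_left g4 (by positivity)
      _ = c / 4 * L := by field_simp; ring
  have g8 : 3 + A * Real.log L ≤ L ^ δ := by
    have e1 : L ^ δ = L ^ (δ / 2) * L ^ (δ / 2) := by
      rw [← Real.rpow_add hL0]
      congr 1
      ring
    have e2 : 1 ≤ L ^ (δ / 2) := Real.one_le_rpow hL1 (by positivity)
    rw [e1]
    have e3 : 3 + A * Real.log L ≤ 3 + A * L ^ (δ / 2) := by
      have := mul_le_mul_of_nonneg_left g1 hA.le
      linarith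
    nlinarith
  have g9 : L ^ (1 - 2 * δ) * L ^ δ * L ^ δ = L := by
    rw [← Real.rpow_add hL0, ← Real.rpow_add hL0]
    have : 1 - 2 * δ + δ + δ = 1 := by ring
    rw [this, Real.rpow_one]
  have g10 : 0 < L ^ (1 - 2 * δ) := by positivity
  have g11 : 0 < L ^ δ := by positivity
  have g12 : κ * (2 * L ^ (1 - 2 * δ) * (3 + A * Real.log L)) ≤ c / 2 * L := by
    calc κ * (2 * L ^ (1 - 2 * δ) * (3 + A * Real.log L))
        ≤ κ * (2 * L ^ (1 - 2 * δ) * L ^ δ) := by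
          apply mul_le_mul_of_nonneg_left _ hκ.le
          exact mul_le_mul_of_nonneg_left g8 (by positivity)
      _ = (4 * κ) * (L ^ (1 - 2 * δ) * L ^ δ) / 2 := by ring
      _ ≤ (L ^ δ * c) * (L ^ (1 - 2 * δ) * L ^ δ) / 2 := by
          apply div_le_div_of_nonneg_right _ (by norm_num)
          exact mul_le_mul_of_nonneg_right g3 (by positivity)
      _ = c / 2 * (L ^ (1 - 2 * δ) * L ^ δ * L ^ δ) := by ring
      _ = c / 2 * L := by rw [g9]
  linarith

/-- **Periods up to `(log X)^A`.** -/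
theorem polylog (A ε : ℝ) (hA : 1 ≤ A) (hε : 0 < ε) : ∃ X₀ : ℕ, ∀ X : ℕ, X₀ ≤ X →
    (NN X ((Real.log X) ^ A) : ℝ) ≤ (X : ℝ) ^ (1 - 1 / A + ε) := by
  obtain ⟨e, he⟩ : ∃ e : ℝ, e = min ε (1 / A) := ⟨_, rfl⟩
  have hA0 : 0 < A := by linarith
  have he0 : 0 < e := by rw [he]; exact lt_min hε (by positivity)
  have he1 : e ≤ ε := by rw [he]; exact min_le_left _ _
  have he2 : e ≤ 1 / A := by rw [he]; exact min_le_right _ _
  have hAA : 1 / A ≤ 1 := by
    rw [div_le_one hA0]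
    exact hA
  obtain ⟨κ, hκ, h1⟩ := NN_le (1 - 1 / A + e / 2) (by linarith) (by
    have : 0 < 1 / A := by positivity
    linarith)
  have h2 := eventually_small (A := A) (δ := A * e / 4) (κ := κ) (c := e / 2) hA0 (by positivity) hκ
    (by positivity)
  have h3 : ∀ᶠ X : ℕ in atTop, Real.log 2 + 2 * A * Real.log (Real.log X) +
      κ * (2 * (Real.log X) ^ (1 - 2 * (A * e / 4)) * (3 + A * Real.log (Real.log X))) ≤
        e / 2 * Real.log X :=
    (Real.tendsto_log_atTop.comp tendsto_natCast_atTop_atTop).eventually h2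
  obtain ⟨X₁, hX₁⟩ := eventually_atTop.1 h3
  refine ⟨max X₁ 3, fun X hX => ?_⟩
  have hX3 : 3 ≤ X := (le_max_right _ _).trans hX
  have h4 := hX₁ X ((le_max_left _ _).trans hX)
  have hXr : (3 : ℝ) ≤ X := by exact_mod_cast hX3
  have hX0 : (0 : ℝ) < X := by linarith
  obtain ⟨L, hL⟩ : ∃ L : ℝ, L = Real.log X := ⟨_, rfl⟩
  have hL1 : 1 ≤ L := by
    rw [hL, Real.le_log_iff_exp_le hX0]
    have := Real.exp_one_lt_d9
    linarith
  have hL0 : 0 < L := by linarith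
  have hLA : 1 ≤ L ^ A := Real.one_le_rpow hL1 hA0.le
  rw [← hL] at h4 ⊢
  have h5 := h1 X (L ^ A) hLA (by omega)
  refine h5.trans ?_
  have h6 : (2 * L ^ A) ^ (1 - (1 - 1 / A + e / 2)) ≤ 2 * L ^ (1 - 2 * (A * e / 4)) := by
    rw [Real.mul_rpow (by norm_num) (by positivity), ← Real.rpow_mul hL0.le]
    have e1 : A * (1 - (1 - 1 / A + e / 2)) = 1 - 2 * (A * e / 4) := by
      field_simp
      ring
    rw [e1]
    refine mul_le_mul_of_nonneg_right ?_ (by positivity)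
    calc (2 : ℝ) ^ (1 - (1 - 1 / A + e / 2)) ≤ 2 ^ (1 : ℝ) :=
          Real.rpow_le_rpow_of_exponent_le (by norm_num) (by linarith)
      _ = 2 := Real.rpow_one 2
  have h7 : 2 + Real.log (2 * L ^ A) ≤ 3 + A * Real.log L := by
    rw [Real.log_mul (by norm_num) (by positivity), Real.log_rpow hL0]
    have : Real.log 2 < 0.6931471808 := Real.log_two_lt_d9
    linarith
  have h8 : 0 ≤ 2 + Real.log (2 * L ^ A) := by
    have : 0 ≤ Real.log (2 * L ^ A) := Real.log_nonneg (by linarith)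
    linarith
  have h9 : (2 * L ^ A) ^ (1 - (1 - 1 / A + e / 2)) * (2 + Real.log (2 * L ^ A)) ≤
      2 * L ^ (1 - 2 * (A * e / 4)) * (3 + A * Real.log L) :=
    mul_le_mul h6 h7 h8 (by positivity)
  have h10 : 2 * (L ^ A) ^ 2 = Real.exp (Real.log 2 + 2 * A * Real.log L) := by
    rw [Real.exp_add, Real.exp_log (by norm_num), Real.rpow_def_of_pos hL0, ← Real.exp_nat_mul]
    congr 2
    push_cast
    ring
  rw [h10]
  calc Real.exp (Real.log 2 + 2 * A * Real.log L) * ((X : ℝ) ^ (1 - 1 / A + e / 2) *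
        Real.exp (κ * ((2 * L ^ A) ^ (1 - (1 - 1 / A + e / 2)) * (2 + Real.log (2 * L ^ A)))))
      ≤ Real.exp (Real.log 2 + 2 * A * Real.log L) * ((X : ℝ) ^ (1 - 1 / A + e / 2) *
        Real.exp (κ * (2 * L ^ (1 - 2 * (A * e / 4)) * (3 + A * Real.log L)))) := by
        have : κ * ((2 * L ^ A) ^ (1 - (1 - 1 / A + e / 2)) * (2 + Real.log (2 * L ^ A))) ≤
          κ * (2 * L ^ (1 - 2 * (A * e / 4)) * (3 + A * Real.log L)) :=
          mul_le_mul_of_nonneg_left h9 hκ.le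
        gcongr
    _ = (X : ℝ) ^ (1 - 1 / A + e / 2) * Real.exp (Real.log 2 + 2 * A * Real.log L +
        κ * (2 * L ^ (1 - 2 * (A * e / 4)) * (3 + A * Real.log L))) := by
        rw [Real.exp_add (Real.log 2 + 2 * A * Real.log L)]
        ring
    _ ≤ (X : ℝ) ^ (1 - 1 / A + e / 2) * Real.exp (e / 2 * L) := by
        gcongr
    _ = (X : ℝ) ^ (1 - 1 / A + e) := by
        rw [Real.rpow_def_of_pos hX0, Real.rpow_def_of_pos hX0, ← Real.exp_add, ← hL]
        congr 1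
        ring
    _ ≤ (X : ℝ) ^ (1 - 1 / A + ε) :=
        Real.rpow_le_rpow_of_exponent_le (by linarith) (by linarith)

end Pool.Agent.Lib.MP_9c4f7e_nt.Rare
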